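import Pool.Agent.T9h15.RV.Sy

set_option autoImplicit false
set_option linter.unusedSectionVars false
set_option linter.unusedSimpArgs false

/-! Pairs of matrices which commute with a differential, and homotopies between them. -/

namespace Pool.Agent.T9h15.RO

open Matrix TH6.LF Relation Pool.Agent.T9h15.UN Pool.Agent.T9h15.RV

variable {Γ : Type} [Group Γ] {Ω : Type} [MulAction Γ Ω]
  {J : Type} [Fintype J] [DecidableEq J]

/-- pairs of matrices -/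
noncomputable def di (A B : Matrix J J (MonoidAlgebra ℤ Γ)) :
    Matrix (J ⊕ J) (J ⊕ J) (MonoidAlgebra ℤ Γ) := fromBlocks A 0 0 B

theorem di_mul (A B C D : Matrix J J (MonoidAlgebra ℤ Γ)) :
    di A B * di C D = di (A * C) (B * D) := by
  unfold di
  rw [fromBlocks_multiply]
  simp

theorem di_add (A B C D : Matrix J J (MonoidAlgebra ℤ Γ)) :
    di A B + di C D = di (A + C) (B + D) := by
  unfold di
  rw [fromBlocks_add]
  simp

theorem di_neg (A B : Matrix J J (MonoidAlgebra ℤ Γ)) : -di A B = di (-A) (-B) := by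
  unfold di
  rw [fromBlocks_neg]
  simp

theorem di_sub (A B C D : Matrix J J (MonoidAlgebra ℤ Γ)) :
    di A B - di C D = di (A - C) (B - D) := by
  rw [sub_eq_add_neg, di_neg, di_add, ← sub_eq_add_neg, ← sub_eq_add_neg]

theorem di_one : di (1 : Matrix J J (MonoidAlgebra ℤ Γ)) 1 = 1 := fromBlocks_one

theorem di_zero : di (0 : Matrix J J (MonoidAlgebra ℤ Γ)) 0 = 0 := fromBlocks_zero

theorem di_inj {A B C D : Matrix J J (MonoidAlgebra ℤ Γ)} (h : di A B = di C D) :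
    A = C ∧ B = D := by
  obtain ⟨h1, -, -, h2⟩ := fromBlocks_inj.mp h
  exact ⟨h1, h2⟩

theorem di_pow (A B : Matrix J J (MonoidAlgebra ℤ Γ)) (n : ℕ) :
    di A B ^ n = di (A ^ n) (B ^ n) := by
  induction n with
  | zero => rw [pow_zero, pow_zero, pow_zero, di_one]
  | succ n ih => rw [pow_succ, ih, di_mul, pow_succ, pow_succ]

/-- null-homotopic pairs -/
noncomputable def nh (μ k : Matrix J J (MonoidAlgebra ℤ Γ)) :
    Matrix (J ⊕ J) (J ⊕ J) (MonoidAlgebra ℤ Γ) := di (μ * k) (k * μ)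

theorem nh_add (μ k k' : Matrix J J (MonoidAlgebra ℤ Γ)) :
    nh μ k + nh μ k' = nh μ (k + k') := by
  unfold nh
  rw [di_add, Matrix.mul_add, Matrix.add_mul]

theorem nh_neg (μ k : Matrix J J (MonoidAlgebra ℤ Γ)) : -nh μ k = nh μ (-k) := by
  unfold nh
  rw [di_neg, Matrix.mul_neg, Matrix.neg_mul]

theorem nh_zero (μ : Matrix J J (MonoidAlgebra ℤ Γ)) : nh μ 0 = 0 := by
  unfold nh
  rw [Matrix.mul_zero, Matrix.zero_mul, di_zero]

/-- pairs which commute with the differential -/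
def CM (μ : Matrix J J (MonoidAlgebra ℤ Γ)) (M : Matrix (J ⊕ J) (J ⊕ J) (MonoidAlgebra ℤ Γ)) :
    Prop := ∃ A B, M = di A B ∧ A * μ = μ * B

section cm

variable {μ : Matrix J J (MonoidAlgebra ℤ Γ)} {M M' : Matrix (J ⊕ J) (J ⊕ J) (MonoidAlgebra ℤ Γ)}

theorem CM.mul (h : CM μ M) (h' : CM μ M') : CM μ (M * M') := by
  obtain ⟨A, B, rfl, h1⟩ := h
  obtain ⟨C, D, rfl, h2⟩ := h'
  refine ⟨A * C, B * D, di_mul _ _ _ _, ?_⟩
  rw [Matrix.mul_assoc, h2, ← Matrix.mul_assoc, h1, Matrix.mul_assoc]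

theorem CM.add (h : CM μ M) (h' : CM μ M') : CM μ (M + M') := by
  obtain ⟨A, B, rfl, h1⟩ := h
  obtain ⟨C, D, rfl, h2⟩ := h'
  refine ⟨A + C, B + D, di_add _ _ _ _, ?_⟩
  rw [Matrix.add_mul, h1, h2, Matrix.mul_add]

theorem CM.neg (h : CM μ M) : CM μ (-M) := by
  obtain ⟨A, B, rfl, h1⟩ := h
  refine ⟨-A, -B, di_neg _ _, ?_⟩
  rw [Matrix.neg_mul, h1, Matrix.mul_neg]

theorem CM.sub (h : CM μ M) (h' : CM μ M') : CM μ (M - M') := by
  rw [sub_eq_add_neg]; exact h.add h'.neg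

theorem CM.one : CM μ (1 : Matrix (J ⊕ J) (J ⊕ J) (MonoidAlgebra ℤ Γ)) :=
  ⟨1, 1, di_one.symm, by rw [Matrix.one_mul, Matrix.mul_one]⟩

theorem CM.zero : CM μ (0 : Matrix (J ⊕ J) (J ⊕ J) (MonoidAlgebra ℤ Γ)) :=
  ⟨0, 0, di_zero.symm, by rw [Matrix.zero_mul, Matrix.mul_zero]⟩

theorem CM.pow (h : CM μ M) (n : ℕ) : CM μ (M ^ n) := by
  induction n with
  | zero => rw [pow_zero]; exact CM.one
  | succ n ih => rw [pow_succ]; exact ih.mul h

theorem CM.sum {ι : Type} (s : Finset ι) (f : ι → Matrix (J ⊕ J) (J ⊕ J) (MonoidAlgebra ℤ Γ))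
    (h : ∀ i ∈ s, CM μ (f i)) : CM μ (∑ i ∈ s, f i) := by
  classical
  induction s using Finset.induction_on with
  | empty => rw [Finset.sum_empty]; exact CM.zero
  | insert a s ha ih =>
    rw [Finset.sum_insert ha]
    exact (h a (Finset.mem_insert_self a s)).add (ih fun i hi => h i (Finset.mem_insert_of_mem hi))

theorem CM.nh (k : Matrix J J (MonoidAlgebra ℤ Γ)) : CM μ (nh μ k) :=
  ⟨μ * k, k * μ, rfl, Matrix.mul_assoc _ _ _⟩

theorem mul_nh {A B : Matrix J J (MonoidAlgebra ℤ Γ)} (h : A * μ = μ * B)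
    (k : Matrix J J (MonoidAlgebra ℤ Γ)) : di A B * RO.nh μ k = RO.nh μ (B * k) := by
  unfold RO.nh
  rw [di_mul, ← Matrix.mul_assoc, h, Matrix.mul_assoc, Matrix.mul_assoc]

theorem nh_mul {A B : Matrix J J (MonoidAlgebra ℤ Γ)} (h : A * μ = μ * B)
    (k : Matrix J J (MonoidAlgebra ℤ Γ)) : RO.nh μ k * di A B = RO.nh μ (k * A) := by
  unfold RO.nh
  rw [di_mul, Matrix.mul_assoc, Matrix.mul_assoc, ← h, Matrix.mul_assoc]

theorem CM.mul_nh (h : CM μ M) (k : Matrix J J (MonoidAlgebra ℤ Γ)) :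
    ∃ k', M * RO.nh μ k = RO.nh μ k' := by
  obtain ⟨A, B, rfl, h1⟩ := h
  exact ⟨_, RO.mul_nh h1 k⟩

theorem CM.nh_mul (h : CM μ M) (k : Matrix J J (MonoidAlgebra ℤ Γ)) :
    ∃ k', RO.nh μ k * M = RO.nh μ k' := by
  obtain ⟨A, B, rfl, h1⟩ := h
  exact ⟨_, RO.nh_mul h1 k⟩

end cm

/-- the data of a differential and a twisting -/
structure Dg (Γ : Type) [Group Γ] {Ω : Type} [MulAction Γ Ω] {J : Type} [Fintype J]
    [DecidableEq J] (L₁ L₀ : J → Ω) (τ : Ω → Ω) (δ : ℤ) where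
  c : Matrix J J (MonoidAlgebra ℤ Γ)
  μ : Matrix J J (MonoidAlgebra ℤ Γ)
  χ₀ : Matrix J J (MonoidAlgebra ℤ Γ)
  cc : c * c = 1
  ac : adj c = c
  am : adj μ = μ
  cm : c * μ = -(δ • (μ * c))
  ev : μ * c = χ₀ - δ • adj χ₀
  sc : Sup L₁ L₀ (fun x y => y = τ x) c
  sc' : Sup L₀ L₁ (fun x y => y = τ x) c
  sm : Sup L₁ L₀ (fun x y => x = y) μ

section dg

variable {L₁ L₀ : J → Ω} {τ : Ω → Ω} {δ : ℤ} (D : Dg Γ L₁ L₀ τ δ)

theorem sup_od {R : Ω → Ω → Prop} {B C : Matrix J J (MonoidAlgebra ℤ Γ)}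
    (hB : Sup L₁ L₀ R B) (hC : Sup L₀ L₁ R C) :
    Sup (Sum.elim L₁ L₀) (Sum.elim L₁ L₀) R (fromBlocks 0 B C 0) := by
  rintro (k | k) (l | l) g hg
  · exact absurd rfl hg
  · exact hB k l g hg
  · exact hC k l g hg
  · exact absurd rfl hg

theorem sup_di {R : Ω → Ω → Prop} {A B : Matrix J J (MonoidAlgebra ℤ Γ)}
    (hA : Sup L₁ L₁ R A) (hB : Sup L₀ L₀ R B) :
    Sup (Sum.elim L₁ L₀) (Sum.elim L₁ L₀) R (di A B) := by
  rintro (k | k) (l | l) g hg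
  · exact hA k l g hg
  · exact absurd rfl hg
  · exact absurd rfl hg
  · exact hB k l g hg

theorem sup_of_di {R : Ω → Ω → Prop} {A B : Matrix J J (MonoidAlgebra ℤ Γ)}
    (h : Sup (Sum.elim L₁ L₀) (Sum.elim L₁ L₀) R (di A B)) : Sup L₁ L₁ R A ∧ Sup L₀ L₀ R B :=
  ⟨fun k l g hg => h (Sum.inl k) (Sum.inl l) g hg, fun k l g hg => h (Sum.inr k) (Sum.inr l) g hg⟩

theorem trc_di (R : Ω → Ω → Prop) (A B : Matrix J J (MonoidAlgebra ℤ Γ)) :
    trc R (Sum.elim L₁ L₀) (Sum.elim L₁ L₀) (di A B) = di (trc R L₁ L₁ A) (trc R L₀ L₀ B) := by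
  classical
  ext i j g
  rw [coeff_trc]
  rcases i with i | i <;> rcases j with j | j
  · change _ = (trc R L₁ L₁ A i j).coeff g
    rw [coeff_trc]
    rfl
  · change (if _ then (0 : ℤ) else 0) = 0
    simp
  · change (if _ then (0 : ℤ) else 0) = 0
    simp
  · change _ = (trc R L₀ L₀ B i j).coeff g
    rw [coeff_trc]
    rfl

/-- the twisting of the pairs -/
noncomputable def Dg.tw : Tw Γ (Sum.elim L₁ L₀) τ 1 where
  P := fromBlocks 0 D.c D.c 0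
  Q := fromBlocks 0 D.c D.c 0
  mul := by rw [fromBlocks_multiply]; simp [D.cc]
  mul' := by rw [fromBlocks_multiply]; simp [D.cc]
  adjP := by rw [adj_fromBlocks, adj_zero, D.ac, one_smul]
  sup := sup_od D.sc D.sc'
  sup' := sup_od D.sc D.sc'

theorem Dg.dag_di (A B : Matrix J J (MonoidAlgebra ℤ Γ)) :
    D.tw.dag (di A B) = di (D.c * adj B * D.c) (D.c * adj A * D.c) := by
  change fromBlocks 0 D.c D.c 0 * adj (fromBlocks A 0 0 B) * fromBlocks 0 D.c D.c 0 = _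
  rw [adj_fromBlocks, adj_zero, fromBlocks_multiply, fromBlocks_multiply]
  simp [di]

theorem Dg.mc (hδ : δ * δ = 1) : D.μ * D.c = -(δ • (D.c * D.μ)) := by
  rw [D.cm, smul_neg, neg_neg, smul_smul, hδ, one_smul]

theorem Dg.dag_comm (hδ : δ * δ = 1) {A B : Matrix J J (MonoidAlgebra ℤ Γ)}
    (h : A * D.μ = D.μ * B) : D.c * adj B * D.c * D.μ = D.μ * (D.c * adj A * D.c) := by
  have h1 : adj B * D.μ = D.μ * adj A := by
    have h2 := congrArg adj h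
    rw [adj_mul, adj_mul, D.am] at h2
    exact h2.symm
  have e1 : D.c * adj B * D.c * D.μ = D.c * adj B * (D.c * D.μ) := by rw [Matrix.mul_assoc]
  rw [e1, D.cm]
  have e2 : D.c * adj B * -(δ • (D.μ * D.c)) = -(δ • (D.c * (adj B * D.μ) * D.c)) := by
    simp only [Matrix.mul_neg, Matrix.mul_smul, Matrix.mul_assoc]
  rw [e2, h1]
  have e3 : D.c * (D.μ * adj A) * D.c = (D.c * D.μ) * adj A * D.c := by
    simp only [Matrix.mul_assoc]
  rw [e3, D.cm]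
  have e4 : -(δ • (-(δ • (D.μ * D.c)) * adj A * D.c)) = (δ * δ) • (D.μ * D.c * adj A * D.c) := by
    simp only [Matrix.neg_mul, Matrix.smul_mul, smul_neg, neg_neg, smul_smul]
  rw [e4, hδ, one_smul]
  simp only [Matrix.mul_assoc]

theorem Dg.cm_dag (hδ : δ * δ = 1) {M : Matrix (J ⊕ J) (J ⊕ J) (MonoidAlgebra ℤ Γ)}
    (h : CM D.μ M) : CM D.μ (D.tw.dag M) := by
  obtain ⟨A, B, rfl, h1⟩ := h
  exact ⟨_, _, D.dag_di A B, D.dag_comm hδ h1⟩

theorem Dg.dag_nh (hδ : δ * δ = 1) (k : Matrix J J (MonoidAlgebra ℤ Γ)) :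
    D.tw.dag (nh D.μ k) = nh D.μ (-(δ • (D.c * adj k * D.c))) := by
  unfold nh
  rw [D.dag_di, adj_mul, adj_mul, D.am]
  congr 1
  · have e1 : D.c * (D.μ * adj k) * D.c = (D.c * D.μ) * adj k * D.c := by
      simp only [Matrix.mul_assoc]
    rw [e1, D.cm]
    simp only [Matrix.neg_mul, Matrix.smul_mul, Matrix.mul_neg, Matrix.mul_smul, Matrix.mul_assoc]
  · have e1 : D.c * (adj k * D.μ) * D.c = D.c * adj k * (D.μ * D.c) := by
      simp only [Matrix.mul_assoc]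
    rw [e1, D.mc hδ]
    simp only [Matrix.neg_mul, Matrix.smul_mul, Matrix.mul_neg, Matrix.mul_smul, Matrix.mul_assoc]

/-- even null-homotopic pairs -/
def Dg.Ev (M : Matrix (J ⊕ J) (J ⊕ J) (MonoidAlgebra ℤ Γ)) : Prop :=
  ∃ χ : Matrix J J (MonoidAlgebra ℤ Γ), M = nh D.μ ((χ - δ • adj χ) * D.c)

theorem Dg.ev_zero : D.Ev 0 := by
  refine ⟨0, ?_⟩
  rw [adj_zero, smul_zero, sub_zero, Matrix.zero_mul, nh_zero]

theorem Dg.ev_add {M M' : Matrix (J ⊕ J) (J ⊕ J) (MonoidAlgebra ℤ Γ)} (h : D.Ev M)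
    (h' : D.Ev M') : D.Ev (M + M') := by
  obtain ⟨χ, rfl⟩ := h
  obtain ⟨χ', rfl⟩ := h'
  refine ⟨χ + χ', ?_⟩
  rw [nh_add, ← Matrix.add_mul]
  congr 2
  rw [adj_add, smul_add]
  abel

theorem Dg.ev_neg {M : Matrix (J ⊕ J) (J ⊕ J) (MonoidAlgebra ℤ Γ)} (h : D.Ev M) :
    D.Ev (-M) := by
  obtain ⟨χ, rfl⟩ := h
  refine ⟨-χ, ?_⟩
  rw [nh_neg, ← Matrix.neg_mul]
  congr 2
  rw [adj_neg, smul_neg]
  abel

theorem Dg.ev_conj (hδ : δ * δ = 1) {M G : Matrix (J ⊕ J) (J ⊕ J) (MonoidAlgebra ℤ Γ)}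
    (h : D.Ev M) (hG : CM D.μ G) : D.Ev (G * M * D.tw.dag G) := by
  obtain ⟨χ, rfl⟩ := h
  obtain ⟨A, B, rfl, h1⟩ := hG
  refine ⟨B * χ * adj B, ?_⟩
  rw [mul_nh h1, D.dag_di, nh_mul (D.dag_comm hδ h1)]
  congr 1
  have e1 : B * ((χ - δ • adj χ) * D.c) * (D.c * adj B * D.c)
      = B * (χ - δ • adj χ) * (D.c * D.c) * adj B * D.c := by
    simp only [Matrix.mul_assoc]
  rw [e1, D.cc, Matrix.mul_one]
  congr 1
  simp only [adj_mul, adj_adj, Matrix.mul_sub, Matrix.sub_mul, Matrix.mul_smul, Matrix.smul_mul,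
    Matrix.mul_assoc]

theorem Dg.ev_sum (hδ : δ * δ = 1) (k : Matrix J J (MonoidAlgebra ℤ Γ)) :
    D.Ev (nh D.μ k + D.tw.dag (nh D.μ k)) := by
  refine ⟨k * D.c, ?_⟩
  rw [D.dag_nh hδ, nh_add]
  congr 1
  rw [adj_mul, D.ac, Matrix.sub_mul, Matrix.mul_assoc k, D.cc, Matrix.mul_one, Matrix.smul_mul]
  abel

theorem Dg.ev_mul (hδ : δ * δ = 1) (k : Matrix J J (MonoidAlgebra ℤ Γ)) :
    D.Ev (nh D.μ k * D.tw.dag (nh D.μ k)) := by
  refine ⟨-(δ • (k * D.χ₀ * adj k)), ?_⟩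
  rw [D.dag_nh hδ]
  have e0 : nh D.μ (-(δ • (D.c * adj k * D.c)))
      = di (D.μ * (-(δ • (D.c * adj k * D.c)))) ((-(δ • (D.c * adj k * D.c))) * D.μ) := rfl
  rw [e0, nh_mul (Matrix.mul_assoc _ _ _)]
  congr 1
  have e1 : k * (D.μ * -(δ • (D.c * adj k * D.c))) = -(δ • (k * (D.μ * D.c) * adj k * D.c)) := by
    simp only [Matrix.mul_neg, Matrix.mul_smul, Matrix.mul_assoc]
  rw [e1, D.ev]
  simp only [adj_mul, adj_adj, adj_neg, adj_zsmul, Matrix.mul_sub, Matrix.sub_mul, Matrix.mul_smul,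
    Matrix.smul_mul, Matrix.mul_assoc, smul_neg, smul_sub, Matrix.neg_mul, neg_sub]
  abel

/-- powers which are null-homotopic on the first component -/
theorem Dg.pow_nh (hδ : δ * δ = 1) {A B : Matrix J J (MonoidAlgebra ℤ Γ)} (h : A * D.μ = D.μ * B)
    (hd : D.tw.dag (di A B) = di A B) {M : ℕ} {H : Matrix J J (MonoidAlgebra ℤ Γ)}
    (hM : A ^ M = D.μ * H) : ∃ k, di A B ^ (2 * M) = nh D.μ k := by
  have hAB : di A B ^ M = di (A ^ M) (B ^ M) := di_pow A B M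
  have hcm : A ^ M * D.μ = D.μ * B ^ M := by
    have h1 : ∀ n : ℕ, A ^ n * D.μ = D.μ * B ^ n := by
      intro n
      induction n with
      | zero => rw [pow_zero, pow_zero, Matrix.one_mul, Matrix.mul_one]
      | succ n ih => rw [pow_succ, Matrix.mul_assoc, h, ← Matrix.mul_assoc, ih, Matrix.mul_assoc,
          ← pow_succ]
    exact h1 M
  have hB : B ^ M = -(δ • (D.c * adj H * D.c)) * D.μ := by
    have h1 : D.tw.dag (di A B ^ M) = di A B ^ M := by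
      rw [D.tw.dag_pow, hd]
    rw [hAB, D.dag_di] at h1
    obtain ⟨-, h2⟩ := di_inj h1
    rw [← h2, hM, adj_mul, D.am]
    have e1 : D.c * (adj H * D.μ) * D.c = D.c * adj H * (D.μ * D.c) := by
      simp only [Matrix.mul_assoc]
    rw [e1, D.mc hδ]
    simp only [Matrix.neg_mul, Matrix.smul_mul, Matrix.mul_neg, Matrix.mul_smul, Matrix.mul_assoc]
  obtain ⟨H', hH'⟩ : ∃ H', -(δ • (D.c * adj H * D.c)) = H' := ⟨_, rfl⟩
  rw [hH'] at hB
  refine ⟨H' * D.μ * H, ?_⟩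
  rw [two_mul, pow_add, hAB, di_mul]
  unfold nh
  congr 1
  · conv_lhs => rw [hM, ← Matrix.mul_assoc, ← hM, hcm, hB]
    simp only [Matrix.mul_assoc]
  · have e1 : D.μ * B ^ M = D.μ * H * D.μ := by rw [← hcm, hM]
    conv_lhs => rw [hB, Matrix.mul_assoc, ← hB, e1]
    simp only [Matrix.mul_assoc]

/-- the elements of the filtration commute with the differential -/
theorem Dg.fil_cm (hm : ∀ (R : Ω → Ω → Prop), Inv Γ R → ∀ A B : Matrix J J (MonoidAlgebra ℤ Γ),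
    A * D.μ = D.μ * B → trc R L₁ L₁ A * D.μ = D.μ * trc R L₀ L₀ B)
    {X M : Matrix (J ⊕ J) (J ⊕ J) (MonoidAlgebra ℤ Γ)} (hX : CM D.μ X) {n : ℕ}
    (hM : M ∈ Fil (Sum.elim L₁ L₀) X n) : CM D.μ M := by
  induction hM using AddSubgroup.closure_induction with
  | mem A hA =>
    obtain ⟨j, h1, R, hR, rfl⟩ := hA
    obtain ⟨A, B, h2, h3⟩ := hX.pow j
    rw [h2, trc_di]
    exact ⟨_, _, rfl, hm R hR A B h3⟩
  | zero => exact CM.zero
  | add A B _ _ h1 h2 => exact h1.add h2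
  | neg A _ h1 => exact h1.neg

theorem Dg.trc_comm (R : Ω → Ω → Prop) (hR : Inv Γ R) (A B : Matrix J J (MonoidAlgebra ℤ Γ))
    (h : A * D.μ = D.μ * B) : trc R L₁ L₁ A * D.μ = D.μ * trc R L₀ L₀ B := by
  rw [← RV.trc_mul_vert _ D.sm, h, trc_vert_mul hR D.sm]

theorem Dg.trc_nh (R : Ω → Ω → Prop) (hR : Inv Γ R) (k : Matrix J J (MonoidAlgebra ℤ Γ)) :
    trc R (Sum.elim L₁ L₀) (Sum.elim L₁ L₀) (nh D.μ k) = nh D.μ (trc R L₀ L₁ k) := by
  unfold nh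
  rw [trc_di, trc_vert_mul hR D.sm, RV.trc_mul_vert _ D.sm]

/-- the deep part of the filtration is null-homotopic -/
theorem Dg.fil_nh {X M : Matrix (J ⊕ J) (J ⊕ J) (MonoidAlgebra ℤ Γ)} (hX : CM D.μ X) {N : ℕ}
    {k : Matrix J J (MonoidAlgebra ℤ Γ)} (hN : X ^ N = nh D.μ k)
    (hM : M ∈ Fil (Sum.elim L₁ L₀) X N) : ∃ k', M = nh D.μ k' := by
  induction hM using AddSubgroup.closure_induction with
  | mem A hA =>
    obtain ⟨j, h1, R, hR, rfl⟩ := hA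
    obtain ⟨i, rfl⟩ : ∃ i, j = N + i := ⟨j - N, by omega⟩
    rw [pow_add, hN]
    obtain ⟨k', hk'⟩ := (hX.pow i).nh_mul k
    rw [hk']
    exact ⟨_, D.trc_nh R hR k'⟩
  | zero => exact ⟨0, (nh_zero _).symm⟩
  | add A B _ _ h1 h2 =>
    obtain ⟨k1, rfl⟩ := h1
    obtain ⟨k2, rfl⟩ := h2
    exact ⟨_, nh_add _ _ _⟩
  | neg A _ h1 =>
    obtain ⟨k1, rfl⟩ := h1
    exact ⟨_, nh_neg _ _⟩

end dg

end Pool.Agent.T9h15.RO
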