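import Pool.Agent.T9h15.RO.Dg

set_option autoImplicit false
set_option linter.unusedSectionVars false
set_option linter.unusedSimpArgs false

/-! The elimination of directed letters up to even null-homotopic remainders. -/

namespace Pool.Agent.T9h15.RO

open Matrix TH6.LF Relation Pool.Agent.T9h15.UN Pool.Agent.T9h15.RV

variable {Γ : Type} [Group Γ]

section abs

variable {I : Type} [Fintype I] [DecidableEq I] {Ω : Type} [MulAction Γ Ω] {L : I → Ω}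
  {τ : Ω → Ω} {ε : ℤ} (T : Tw Γ L τ ε) (hτ : ∀ x, τ (τ x) = x)
  (hτg : ∀ (g : Γ) x, τ (g • x) = g • τ x)
  {lt : Ω → Ω → Prop} (hlt : ∀ x y, lt x y → ¬ lt (τ y) (τ x)) (hlti : Inv Γ lt)
  {X₀ : Matrix I I (MonoidAlgebra ℤ Γ)} {ρ₀ : Ω → Ω → Prop}

include hτ hτg hlt hlti in
theorem el_stepA (hε : ε * ε = 1) (hρ₀ : Inv Γ ρ₀) (H₀ : MT τ ρ₀) (hX₀ : Sup L L ρ₀ X₀)
    (hd₀ : T.dag X₀ = X₀) (N : ℕ)
    {ρ : Ω → Ω → Prop} (hρ : Inv Γ ρ) (H : MT τ ρ) (X : Matrix I I (MonoidAlgebra ℤ Γ))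
    (hX : Sup L L ρ X) (hX1 : X ∈ Fil L X₀ 1) (hd : T.dag X = X) {a : ℕ}
    (ha : trc lt L L X ∈ Fil L X₀ (a + 1)) :
    ∃ X' : Matrix I I (MonoidAlgebra ℤ Γ),
      Sup L L (el τ ρ lt) X' ∧ X' ∈ Fil L X₀ 1 ∧ T.dag X' = X' ∧
      trc lt L L X' ∈ Fil L X₀ (a + 2) ∧
      (∑ i ∈ Finset.range (N + 1), (-trc lt L L X) ^ i) * (1 + X)
        * T.dag (∑ i ∈ Finset.range (N + 1), (-trc lt L L X) ^ i)
        = (1 - (-trc lt L L X) ^ (N + 1)) * T.dag (1 - (-trc lt L L X) ^ (N + 1)) + X' := by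
  set n := trc lt L L X with hn
  set nb := trc (fun x y => lt (τ y) (τ x)) L L X with hnb
  set r := trc (ne τ lt) L L X with hr
  have hsum : X = r + n + nb := trc_split hlt X
  have hlti' : Inv Γ (fun x y => lt (τ y) (τ x)) := by
    intro g x y h
    change lt (τ (g • y)) (τ (g • x))
    rw [hτg, hτg]
    exact hlti g _ _ h
  have hnei : Inv Γ (ne τ lt) := by
    intro g x y h
    refine ⟨fun h1 => h.1 ((hlti.iff g _ _).mp h1), fun h1 => h.2 ?_⟩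
    rw [hτg, hτg] at h1
    exact (hlti.iff g _ _).mp h1
  have hdn : T.dag n = nb := by rw [hn, T.dag_trc hτ hτg hlti, hd]
  have hdnb : T.dag nb = n := by rw [← hdn, T.dag_dag hε]
  have hdr : T.dag r = r := by
    rw [hr, T.dag_trc hτ hτg hnei, hd]
    congr 1
    ext x y
    unfold ne
    rw [hτ, hτ]
    exact and_comm
  have hn1 : n ∈ Fil L X₀ 1 := fil_trc hlti hX1
  have hnb1 : nb ∈ Fil L X₀ 1 := fil_trc hlti' hX1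
  have hr1 : r ∈ Fil L X₀ 1 := fil_trc hnei hX1
  let G : Matrix I I (MonoidAlgebra ℤ Γ) := ∑ i ∈ Finset.range (N + 1), (-n) ^ i
  have hG1 : G * (1 + n) = 1 - (-n) ^ (N + 1) := by
    have h1 := geom_sum_mul_neg (-n) (N + 1)
    rw [sub_neg_eq_add] at h1
    exact h1
  have hG3 : (1 + nb) * T.dag G = T.dag (1 - (-n) ^ (N + 1)) := by
    have h1 := congrArg T.dag hG1
    rwa [T.dag_mul, T.dag_add, T.dag_one, hdn] at h1
  let G' : Matrix I I (MonoidAlgebra ℤ Γ) := ∑ i ∈ Finset.range N, (-n) ^ (i + 1)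
  have hGG : G = 1 + G' := by
    simp only [G, G']
    rw [Finset.sum_range_succ', pow_zero, add_comm]
  have hG' : G' ∈ Fil L X₀ (a + 1) := by
    refine sum_mem fun i _ => ?_
    refine fil_anti ?_ (fil_pow hρ₀ H₀ hX₀ (neg_mem ha) (i + 1))
    nlinarith [Nat.zero_le (i * (a + 1))]
  have hD' : T.dag G' ∈ Fil L X₀ (a + 1) := T.fil_dag hτ hτg hd₀ hG'
  have hM1 : r - n * nb ∈ Fil L X₀ 1 := by
    refine sub_mem hr1 (fil_anti (by omega) (fil_mul hρ₀ H₀ hX₀ hn1 hnb1))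
  let X' := G * (r - n * nb) * T.dag G
  have hX'r : X' - r ∈ Fil L X₀ (a + 2) := by
    have h1 : X' - r = -(n * nb) + (G' * (r - n * nb) + (r - n * nb) * T.dag G'
        + G' * (r - n * nb) * T.dag G') := by
      simp only [X']
      rw [hGG, T.dag_add, T.dag_one]
      noncomm_ring
    rw [h1]
    refine add_mem (neg_mem ?_) (add_mem (add_mem ?_ ?_) ?_)
    · exact fil_anti (by omega) (fil_mul hρ₀ H₀ hX₀ ha hnb1)
    · exact fil_anti (by omega) (fil_mul hρ₀ H₀ hX₀ hG' hM1)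
    · exact fil_anti (by omega) (fil_mul hρ₀ H₀ hX₀ hM1 hD')
    · exact fil_anti (by omega) (fil_mul hρ₀ H₀ hX₀ (fil_mul hρ₀ H₀ hX₀ hG' hM1) hD')
  refine ⟨X', ?_, ?_, ?_, ?_, ?_⟩
  · -- the support
    have hnS : Sup L L (nL ρ lt) n := sup_trc_and hX
    have hnbS : Sup L L (nbL τ ρ lt) nb := sup_trc_and hX
    have hrS : Sup L L (rL τ ρ lt) r := sup_trc_and hX
    have hnLi : Inv Γ (nL ρ lt) := inv_and hρ hlti
    have hnbLi : Inv Γ (nbL τ ρ lt) := inv_and hρ hlti'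
    have hGS : Sup L L (ReflTransGen (nL ρ lt)) G := by
      refine sup_sum _ _ fun i _ => ?_
      exact (sup_pow hnLi (sup_neg hnS) i).mono fun x y h => h.rtg
    have hGS' : Sup L L (ReflTransGen (nbL τ ρ lt)) (T.dag G) := by
      refine (T.sup_dag hτ hτg (inv_rtg hnLi) hGS).mono fun x y h => ?_
      have h1 := rtg_rev (τ := τ) (ρ' := nbL τ ρ lt)
        (fun x y h => ⟨H.sym _ _ h.1, by rw [hτ, hτ]; exact h.2⟩) h
      rwa [hτ, hτ] at h1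
    have hMS : Sup L L (mdL τ ρ lt) (r - n * nb) := by
      refine sup_sub (hrS.mono fun x y h => Or.inl h) ?_
      exact hnS.mul hnbLi (fun x y z h h' => Or.inr ⟨y, h, h'⟩) hnbS
    have hmdi : Inv Γ (mdL τ ρ lt) := by
      rintro g x y (h | ⟨c, h1, h2⟩)
      · exact Or.inl ⟨hρ g _ _ h.1, (hnei g x y h.2).1, (hnei g x y h.2).2⟩
      · exact Or.inr ⟨g • c, hnLi g _ _ h1, hnbLi g _ _ h2⟩
    have h1 : Sup L L (fun x b => ∃ a, ReflTransGen (nL ρ lt) x a ∧ mdL τ ρ lt a b)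
        (G * (r - n * nb)) := hGS.mul hmdi (fun x y z h h' => ⟨y, h, h'⟩) hMS
    exact h1.mul (inv_rtg hnbLi) (fun x y z h h' => ⟨y, h, h'⟩) hGS'
  · have h1 : X' = (X' - r) + r := by abel
    rw [h1]
    exact add_mem (fil_anti (by omega) hX'r) hr1
  · simp only [X']
    rw [T.dag_mul, T.dag_mul, T.dag_dag hε, T.dag_sub, T.dag_mul, hdr, hdn, hdnb, Matrix.mul_assoc]
  · have h1 : X' = (X' - r) + r := by abel
    have h2 : trc lt L L r = 0 := by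
      rw [hr, trc_trc]
      classical
      ext i j g
      rw [coeff_trc, if_neg]
      · rfl
      · rintro ⟨h3, h4⟩
        exact h3.1 h4
    rw [h1, trc_add, h2, add_zero]
    exact fil_trc hlti hX'r
  · change G * (1 + X) * T.dag G = _
    have h1 : (1 : Matrix I I (MonoidAlgebra ℤ Γ)) + X
        = (1 + n) * (1 + nb) + (r - n * nb) := by
      rw [hsum]
      noncomm_ring
    rw [h1, Matrix.mul_add, Matrix.add_mul, ← hG3, ← hG1]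
    simp only [X', Matrix.mul_assoc]

end abs

variable {Ω : Type} [MulAction Γ Ω]
  {J : Type} [Fintype J] [DecidableEq J]
  {L₁ L₀ : J → Ω} {τ : Ω → Ω} {δ : ℤ} (D : Dg Γ L₁ L₀ τ δ)
  (hτ : ∀ x, τ (τ x) = x) (hτg : ∀ (g : Γ) x, τ (g • x) = g • τ x)
  {lt : Ω → Ω → Prop} (hlt : ∀ x y, lt x y → ¬ lt (τ y) (τ x)) (hlti : Inv Γ lt)
  {X₀ : Matrix (J ⊕ J) (J ⊕ J) (MonoidAlgebra ℤ Γ)} {ρ₀ : Ω → Ω → Prop}

/-- a homotopy inverse -/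
def HI (μ : Matrix J J (MonoidAlgebra ℤ Γ)) (G F : Matrix (J ⊕ J) (J ⊕ J) (MonoidAlgebra ℤ Γ)) :
    Prop := CM μ G ∧ CM μ F ∧ (∃ k, G * F = 1 - nh μ k) ∧ ∃ k, F * G = 1 - nh μ k

theorem HI.one (μ : Matrix J J (MonoidAlgebra ℤ Γ)) : HI μ 1 1 :=
  ⟨CM.one, CM.one, ⟨0, by rw [nh_zero, sub_zero, Matrix.mul_one]⟩,
    ⟨0, by rw [nh_zero, sub_zero, Matrix.mul_one]⟩⟩

theorem HI.mul {μ : Matrix J J (MonoidAlgebra ℤ Γ)}
    {G F G' F' : Matrix (J ⊕ J) (J ⊕ J) (MonoidAlgebra ℤ Γ)} (h : HI μ G F) (h' : HI μ G' F') :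
    HI μ (G * G') (F' * F) := by
  obtain ⟨h1, h2, ⟨k1, h3⟩, ⟨k2, h4⟩⟩ := h
  obtain ⟨g1, g2, ⟨l1, g3⟩, ⟨l2, g4⟩⟩ := h'
  refine ⟨h1.mul g1, g2.mul h2, ?_, ?_⟩
  · obtain ⟨m1, e1⟩ := h1.mul_nh l1
    obtain ⟨m2, e2⟩ := h2.nh_mul m1
    refine ⟨k1 + m2, ?_⟩
    have e3 : G * G' * (F' * F) = G * (G' * F') * F := by simp only [Matrix.mul_assoc]
    rw [e3, g3, Matrix.mul_sub, Matrix.mul_one, e1, Matrix.sub_mul, e2, h3, ← nh_add]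
    abel
  · obtain ⟨m1, e1⟩ := g2.mul_nh k2
    obtain ⟨m2, e2⟩ := g1.nh_mul m1
    refine ⟨l2 + m2, ?_⟩
    have e3 : F' * F * (G * G') = F' * (F * G) * G' := by simp only [Matrix.mul_assoc]
    rw [e3, h4, Matrix.mul_sub, Matrix.mul_one, e1, Matrix.sub_mul, e2, g4, ← nh_add]
    abel

include hτ hτg hlt hlti in
theorem el_step' (hδ : δ * δ = 1) (hρ₀ : Inv Γ ρ₀) (H₀ : MT τ ρ₀)
    (hX₀ : Sup (Sum.elim L₁ L₀) (Sum.elim L₁ L₀) ρ₀ X₀) (hc₀ : CM D.μ X₀)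
    (hd₀ : D.tw.dag X₀ = X₀) {N : ℕ} {k₀ : Matrix J J (MonoidAlgebra ℤ Γ)}
    (hN : X₀ ^ (N + 1) = nh D.μ k₀)
    {ρ : Ω → Ω → Prop} (hρ : Inv Γ ρ) (H : MT τ ρ) (X : Matrix (J ⊕ J) (J ⊕ J) (MonoidAlgebra ℤ Γ))
    (hX : Sup (Sum.elim L₁ L₀) (Sum.elim L₁ L₀) ρ X) (hX1 : X ∈ Fil (Sum.elim L₁ L₀) X₀ 1)
    (hd : D.tw.dag X = X) {a : ℕ}
    (ha : trc lt (Sum.elim L₁ L₀) (Sum.elim L₁ L₀) X ∈ Fil (Sum.elim L₁ L₀) X₀ (a + 1)) :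
    ∃ (X' G F : Matrix (J ⊕ J) (J ⊕ J) (MonoidAlgebra ℤ Γ)),
      Sup (Sum.elim L₁ L₀) (Sum.elim L₁ L₀) (el τ ρ lt) X' ∧ X' ∈ Fil (Sum.elim L₁ L₀) X₀ 1 ∧
      D.tw.dag X' = X' ∧
      trc lt (Sum.elim L₁ L₀) (Sum.elim L₁ L₀) X' ∈ Fil (Sum.elim L₁ L₀) X₀ (a + 2) ∧
      HI D.μ G F ∧ D.Ev (G * (1 + X) * D.tw.dag G - (1 + X')) := by
  obtain ⟨X', h1, h2, h3, h4, h5⟩ := el_stepA D.tw hτ hτg hlt hlti (one_mul 1) hρ₀ H₀ hX₀ hd₀ N hρ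
    H X hX hX1 hd ha
  have hn1 : trc lt (Sum.elim L₁ L₀) (Sum.elim L₁ L₀) X ∈ Fil (Sum.elim L₁ L₀) X₀ 1 :=
    fil_trc hlti hX1
  have hncm : CM D.μ (trc lt (Sum.elim L₁ L₀) (Sum.elim L₁ L₀) X) := D.fil_cm D.trc_comm hc₀ hn1
  generalize trc lt (Sum.elim L₁ L₀) (Sum.elim L₁ L₀) X = n at hn1 hncm h5
  obtain ⟨k, hk⟩ : ∃ k, (-n) ^ (N + 1) = nh D.μ k := by
    have h1 := fil_pow hρ₀ H₀ hX₀ (neg_mem hn1) (N + 1)
    rw [mul_one] at h1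
    exact D.fil_nh hc₀ hN h1
  rw [hk] at h5
  have hG1 : (∑ i ∈ Finset.range (N + 1), (-n) ^ i) * (1 + n) = 1 - nh D.μ k := by
    have h1 := geom_sum_mul_neg (-n) (N + 1)
    rw [sub_neg_eq_add, hk] at h1
    exact h1
  have hG2 : (1 + n) * (∑ i ∈ Finset.range (N + 1), (-n) ^ i) = 1 - nh D.μ k := by
    have h1 := mul_neg_geom_sum (-n) (N + 1)
    rw [sub_neg_eq_add, hk] at h1
    exact h1
  refine ⟨X', _, 1 + n, h1, h2, h3, h4, ⟨CM.sum _ _ fun i _ => hncm.neg.pow i, CM.one.add hncm,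
    ⟨k, hG1⟩, ⟨k, hG2⟩⟩, ?_⟩
  rw [h5]
  have h6 : D.Ev (-(nh D.μ k + D.tw.dag (nh D.μ k))) := D.ev_neg (D.ev_sum hδ k)
  have h7 := D.ev_add h6 (D.ev_mul hδ k)
  rw [D.tw.dag_sub, D.tw.dag_one]
  generalize D.tw.dag (nh D.μ k) = z' at h7
  generalize nh D.μ k = z at h7
  have h8 : (1 - z) * (1 - z') + X' - (1 + X') = -(z + z') + z * z' := by
    noncomm_ring
  rw [h8]
  exact h7

include hτ hτg hlt hlti in
theorem el_loop' (hδ : δ * δ = 1) (hρ₀ : Inv Γ ρ₀) (H₀ : MT τ ρ₀)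
    (hX₀ : Sup (Sum.elim L₁ L₀) (Sum.elim L₁ L₀) ρ₀ X₀) (hc₀ : CM D.μ X₀)
    (hd₀ : D.tw.dag X₀ = X₀) {N : ℕ} {k₀ : Matrix J J (MonoidAlgebra ℤ Γ)}
    (hN : X₀ ^ (N + 1) = nh D.μ k₀) (a : ℕ) :
    ∃ (ρ : Ω → Ω → Prop) (X E F : Matrix (J ⊕ J) (J ⊕ J) (MonoidAlgebra ℤ Γ)),
      Inv Γ ρ ∧ MT τ ρ ∧ (∀ x y, ρ x y → TransGen ρ₀ x y) ∧
      Sup (Sum.elim L₁ L₀) (Sum.elim L₁ L₀) ρ X ∧ X ∈ Fil (Sum.elim L₁ L₀) X₀ 1 ∧
      D.tw.dag X = X ∧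
      trc lt (Sum.elim L₁ L₀) (Sum.elim L₁ L₀) X ∈ Fil (Sum.elim L₁ L₀) X₀ (a + 1) ∧
      HI D.μ E F ∧ D.Ev (E * (1 + X₀) * D.tw.dag E - (1 + X)) := by
  induction a with
  | zero =>
    refine ⟨ρ₀, X₀, 1, 1, hρ₀, H₀, fun x y h => TransGen.single h, hX₀, fil_self, hd₀,
      fil_trc hlti fil_self, HI.one _, ?_⟩
    rw [D.tw.dag_one, Matrix.one_mul, Matrix.mul_one, sub_self]
    exact D.ev_zero
  | succ a ih =>
    obtain ⟨ρ, X, E, F, h1, h2, h3, h4, h5, h6, h7, h8, h9⟩ := ih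
    obtain ⟨X', G, F', g1, g2, g3, g4, g5, g6⟩ := el_step' D hτ hτg hlt hlti hδ hρ₀ H₀ hX₀ hc₀
      hd₀ hN h1 h2 X h4 h5 h6 h7
    have hlti' : Inv Γ (fun x y => lt (τ y) (τ x)) := by
      intro g x y h
      change lt (τ (g • y)) (τ (g • x))
      rw [hτg, hτg]
      exact hlti g _ _ h
    refine ⟨el τ ρ lt, X', G * E, F * F', ?_, h2.elim hτ hlt, ?_, g1, g2, g3, g4, g5.mul h8, ?_⟩
    · rintro g x z ⟨b, ⟨a, k1, k2⟩, k3⟩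
      refine ⟨g • b, ⟨g • a, inv_rtg (inv_and h1 hlti) g _ _ k1, ?_⟩,
        inv_rtg (inv_and h1 hlti') g _ _ k3⟩
      rcases k2 with k | ⟨c, k4, k5⟩
      · refine Or.inl ⟨h1 g _ _ k.1, fun k6 => k.2.1 ((hlti.iff g _ _).mp k6), fun k6 => k.2.2 ?_⟩
        rw [hτg, hτg] at k6
        exact (hlti.iff g _ _).mp k6
      · exact Or.inr ⟨g • c, (inv_and h1 hlti) g _ _ k4, (inv_and h1 hlti') g _ _ k5⟩
    · intro x y h
      have h10 := el_trans h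
      clear h
      induction h10 with
      | single k => exact h3 _ _ k
      | tail _ k ih => exact ih.trans (h3 _ _ k)
    · have h10 : G * E * (1 + X₀) * D.tw.dag (G * E) - (1 + X')
          = G * (E * (1 + X₀) * D.tw.dag E - (1 + X)) * D.tw.dag G
            + (G * (1 + X) * D.tw.dag G - (1 + X')) := by
        rw [D.tw.dag_mul]
        noncomm_ring
      rw [h10]
      exact D.ev_add (D.ev_conj hδ h9 g5.1) g6

include hτ hτg hlt hlti in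
theorem el_final' (hδ : δ * δ = 1) (hρ₀ : Inv Γ ρ₀) (H₀ : MT τ ρ₀)
    (hX₀ : Sup (Sum.elim L₁ L₀) (Sum.elim L₁ L₀) ρ₀ X₀) (hc₀ : CM D.μ X₀)
    (hd₀ : D.tw.dag X₀ = X₀) {N : ℕ} {k₀ : Matrix J J (MonoidAlgebra ℤ Γ)}
    (hN : X₀ ^ (N + 1) = nh D.μ k₀) :
    ∃ (ρ : Ω → Ω → Prop) (X E F : Matrix (J ⊕ J) (J ⊕ J) (MonoidAlgebra ℤ Γ)),
      Inv Γ ρ ∧ MT τ ρ ∧ (∀ x y, ρ x y → TransGen ρ₀ x y) ∧
      Sup (Sum.elim L₁ L₀) (Sum.elim L₁ L₀) (fun x y => ρ x y ∧ ne τ lt x y) X ∧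
      CM D.μ X ∧ (∃ k, X ^ (N + 1) = nh D.μ k) ∧ D.tw.dag X = X ∧
      HI D.μ E F ∧ D.Ev (E * (1 + X₀) * D.tw.dag E - (1 + X)) := by
  have hε : (1 : ℤ) * 1 = 1 := one_mul 1
  obtain ⟨ρ, X, E, F, h1, h2, h3, h4, h5, h6, h7, h8, h9⟩ :=
    el_loop' D hτ hτg hlt hlti hδ hρ₀ H₀ hX₀ hc₀ hd₀ hN N
  have hnei : Inv Γ (ne τ lt) := by
    intro g x y h
    refine ⟨fun h1 => h.1 ((hlti.iff g _ _).mp h1), fun h1 => h.2 ?_⟩
    rw [hτg, hτg] at h1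
    exact (hlti.iff g _ _).mp h1
  obtain ⟨k, hk⟩ := D.fil_nh hc₀ hN h7
  have hdn : D.tw.dag (trc lt (Sum.elim L₁ L₀) (Sum.elim L₁ L₀) X)
      = trc (fun x y => lt (τ y) (τ x)) (Sum.elim L₁ L₀) (Sum.elim L₁ L₀) X := by
    rw [D.tw.dag_trc hτ hτg hlti, h6]
  have h12 := trc_split (L := Sum.elim L₁ L₀) hlt X
  rw [← hdn, hk] at h12
  have h13 : trc (ne τ lt) (Sum.elim L₁ L₀) (Sum.elim L₁ L₀) X ∈ Fil (Sum.elim L₁ L₀) X₀ 1 :=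
    fil_trc hnei h5
  refine ⟨ρ, trc (ne τ lt) (Sum.elim L₁ L₀) (Sum.elim L₁ L₀) X, E, F, h1, h2, h3, sup_trc_and h4,
    D.fil_cm D.trc_comm hc₀ h13, ?_, ?_, h8, ?_⟩
  · have h14 := fil_pow hρ₀ H₀ hX₀ h13 (N + 1)
    rw [mul_one] at h14
    exact D.fil_nh hc₀ hN h14
  · rw [D.tw.dag_trc hτ hτg hnei, h6]
    congr 1
    ext x y
    unfold ne
    rw [hτ, hτ]
    exact and_comm
  · have h14 : E * (1 + X₀) * D.tw.dag E
        - (1 + trc (ne τ lt) (Sum.elim L₁ L₀) (Sum.elim L₁ L₀) X)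
        = (E * (1 + X₀) * D.tw.dag E - (1 + X)) + (nh D.μ k + D.tw.dag (nh D.μ k)) := by
      nth_rewrite 2 [h12]
      abel
    rw [h14]
    exact D.ev_add h9 (D.ev_sum hδ k)

end Pool.Agent.T9h15.RO
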