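import Pool.Agent.T9h15.RO.Gh

set_option autoImplicit false
set_option linter.unusedSectionVars false
set_option linter.unusedSimpArgs false

/-! Homotopy equivalences act on formations. -/

namespace Pool.Agent.T9h15.RO

open Matrix TH57.Thr TH6.LF TH6.CX Pool.Agent.T9h15.UO Pool.Agent.T9h15.UN

variable {Γ : Type} [Group Γ]

section flip

variable {J A : Type} [Fintype J] [DecidableEq J] [Fintype A] [DecidableEq A]

/-- adding the formation whose second lagrangian is the dual of the first one -/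
theorem feh_flip {δ : ℤ} (hδ : δ * δ = 1) (γ μ : Matrix J J (MonoidAlgebra ℤ Γ)) :
    FEH δ (fromBlocks γ 0 0 0 : Matrix (J ⊕ (A ⊕ A)) (J ⊕ (A ⊕ A)) (MonoidAlgebra ℤ Γ))
      (fromBlocks μ 0 0 1) γ μ := by
  refine FEH.symm ?_
  refine (FEH.st (A := A ⊕ A) γ μ).symm.trans ?_
  refine (FEH.dn (fromBlocks 0 0 0 (fromBlocks 0 1 0 0)) _ _).trans ?_
  let W : Matrix (A ⊕ A) (A ⊕ A) (MonoidAlgebra ℤ Γ) := fromBlocks 0 1 (-(δ • 1)) 0
  have e1 : fromBlocks μ 0 0 0 + fromBlocks γ 0 0 1 * (fromBlocks 0 0 0 (fromBlocks 0 1 0 0)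
      - δ • adj (fromBlocks 0 0 0 (fromBlocks 0 1 0 0)))
      = (fromBlocks μ 0 0 W : Matrix (J ⊕ (A ⊕ A)) (J ⊕ (A ⊕ A)) (MonoidAlgebra ℤ Γ)) := by
    rw [adj_fromBlocks, adj_fromBlocks, fromBlocks_smul, fromBlocks_smul,
      Pool.Agent.R719.LF.fb_sub, Pool.Agent.R719.LF.fb_sub, fromBlocks_multiply, fromBlocks_add]
    simp only [adj_zero, adj_one, smul_zero, sub_zero, Matrix.mul_zero, Matrix.zero_mul, add_zero,
      zero_add, Matrix.one_mul, zero_sub, W]
  rw [e1]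
  refine (FEH.up (fromBlocks 0 0 0 (fromBlocks 0 (δ • 1) 0 0)) _ _).trans ?_
  have e2 : fromBlocks γ 0 0 1 + fromBlocks μ 0 0 W * (fromBlocks 0 0 0 (fromBlocks 0 (δ • 1) 0 0)
      - δ • adj (fromBlocks 0 0 0 (fromBlocks 0 (δ • 1) 0 0)))
      = (fromBlocks γ 0 0 0 : Matrix (J ⊕ (A ⊕ A)) (J ⊕ (A ⊕ A)) (MonoidAlgebra ℤ Γ)) := by
    rw [adj_fromBlocks, adj_fromBlocks, fromBlocks_smul, fromBlocks_smul,
      Pool.Agent.R719.LF.fb_sub, Pool.Agent.R719.LF.fb_sub, fromBlocks_multiply, fromBlocks_add]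
    simp only [adj_zero, adj_one, adj_zsmul, smul_zero, sub_zero, Matrix.mul_zero, Matrix.zero_mul,
      add_zero, zero_add, Matrix.one_mul, zero_sub, W, fromBlocks_multiply, smul_smul, hδ, one_smul,
      Matrix.mul_neg, Matrix.mul_one, Matrix.neg_mul, Matrix.smul_mul, Matrix.mul_smul, neg_zero]
    congr 1
    rw [← fromBlocks_one (l := A) (m := A), fromBlocks_add]
    simp only [add_neg_cancel, add_zero, smul_neg, smul_smul, hδ, one_smul, fromBlocks_zero]
  rw [e2]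
  let U : (Matrix (J ⊕ (A ⊕ A)) (J ⊕ (A ⊕ A)) (MonoidAlgebra ℤ Γ))ˣ :=
    { val := fromBlocks 1 0 0 (fromBlocks 0 (-(δ • 1)) 1 0)
      inv := fromBlocks 1 0 0 (fromBlocks 0 1 (-(δ • 1)) 0)
      val_inv := by
        rw [fromBlocks_multiply, fromBlocks_multiply]
        simp only [Matrix.mul_zero, Matrix.zero_mul, add_zero, zero_add, Matrix.one_mul,
          Matrix.mul_one, Matrix.mul_neg, Matrix.neg_mul, Matrix.smul_mul, Matrix.mul_smul,
          smul_smul, hδ, one_smul, neg_neg, smul_zero, neg_zero, smul_neg, fromBlocks_one]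
      inv_val := by
        rw [fromBlocks_multiply, fromBlocks_multiply]
        simp only [Matrix.mul_zero, Matrix.zero_mul, add_zero, zero_add, Matrix.one_mul,
          Matrix.mul_one, Matrix.mul_neg, Matrix.neg_mul, Matrix.smul_mul, Matrix.mul_smul,
          smul_smul, hδ, one_smul, neg_neg, smul_zero, neg_zero, smul_neg, fromBlocks_one] }
  refine (FEH.row U _ _).trans (FEH.of_eq ?_ ?_)
  · change fromBlocks 1 0 0 (fromBlocks 0 (-(δ • 1)) 1 0) * _ = _
    rw [fromBlocks_multiply]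
    simp only [Matrix.mul_zero, Matrix.zero_mul, add_zero, zero_add, Matrix.one_mul]
  · change fromBlocks 1 0 0 (fromBlocks 0 (-(δ • 1)) 1 0) * _ = _
    simp only [W]
    rw [fromBlocks_multiply, fromBlocks_multiply]
    simp only [Matrix.mul_zero, Matrix.zero_mul, add_zero, zero_add, Matrix.one_mul,
      Matrix.mul_one, Matrix.mul_neg, Matrix.neg_mul, Matrix.smul_mul, Matrix.mul_smul,
      smul_smul, hδ, one_smul, neg_neg, smul_zero, neg_zero, smul_neg, fromBlocks_one]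

end flip

section ext

variable {K A : Type} [Fintype K] [DecidableEq K] [Fintype A] [DecidableEq A]

theorem xt_row {δ : ℤ} (E : (Matrix K K (MonoidAlgebra ℤ Γ))ˣ)
    (γ μ : Matrix K K (MonoidAlgebra ℤ Γ)) :
    FEH δ (fromBlocks γ 0 0 0 : Matrix (K ⊕ A) (K ⊕ A) (MonoidAlgebra ℤ Γ)) (fromBlocks μ 0 0 1)
      (fromBlocks (E.val * γ) 0 0 0 : Matrix (K ⊕ A) (K ⊕ A) (MonoidAlgebra ℤ Γ))
      (fromBlocks (E.val * μ) 0 0 1) := by
  refine (FEH.row (Units.map (stm A) E) _ _).trans (FEH.of_eq ?_ ?_)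
  · change fromBlocks E.val 0 0 1 * _ = _
    rw [fromBlocks_multiply]
    simp only [Matrix.mul_zero, Matrix.zero_mul, add_zero, zero_add, Matrix.one_mul]
  · change fromBlocks E.val 0 0 1 * _ = _
    rw [fromBlocks_multiply]
    simp only [Matrix.mul_zero, Matrix.zero_mul, add_zero, zero_add, Matrix.one_mul]

theorem xt_col {δ : ℤ} (E : (Matrix K K (MonoidAlgebra ℤ Γ))ˣ)
    (γ μ : Matrix K K (MonoidAlgebra ℤ Γ)) :
    FEH δ (fromBlocks γ 0 0 0 : Matrix (K ⊕ A) (K ⊕ A) (MonoidAlgebra ℤ Γ)) (fromBlocks μ 0 0 1)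
      (fromBlocks (γ * E.val) 0 0 0 : Matrix (K ⊕ A) (K ⊕ A) (MonoidAlgebra ℤ Γ))
      (fromBlocks (μ * adj (E⁻¹).val) 0 0 1) := by
  refine (FEH.col (Units.map (stm A) E) _ _).trans (FEH.of_eq ?_ ?_)
  · change _ * fromBlocks E.val 0 0 1 = _
    rw [fromBlocks_multiply]
    simp only [Matrix.mul_zero, Matrix.zero_mul, add_zero, zero_add, Matrix.one_mul]
  · change _ * adj (fromBlocks (E⁻¹).val 0 0 1) = _
    rw [adj_fromBlocks, adj_zero, adj_zero, adj_one, fromBlocks_multiply]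
    simp only [Matrix.mul_zero, Matrix.zero_mul, add_zero, zero_add, Matrix.one_mul]

theorem xt_up {δ : ℤ} (χ γ μ : Matrix K K (MonoidAlgebra ℤ Γ)) :
    FEH δ (fromBlocks γ 0 0 0 : Matrix (K ⊕ A) (K ⊕ A) (MonoidAlgebra ℤ Γ)) (fromBlocks μ 0 0 1)
      (fromBlocks (γ + μ * (χ - δ • adj χ)) 0 0 0 : Matrix (K ⊕ A) (K ⊕ A) (MonoidAlgebra ℤ Γ))
      (fromBlocks μ 0 0 1) := by
  refine (FEH.up (fromBlocks χ 0 0 0) _ _).trans (FEH.of_eq ?_ rfl)
  rw [adj_fromBlocks, fromBlocks_smul, Pool.Agent.R719.LF.fb_sub, fromBlocks_multiply,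
    fromBlocks_add]
  simp only [adj_zero, smul_zero, sub_zero, Matrix.mul_zero, Matrix.zero_mul, add_zero, zero_add]

end ext

section he

variable {J : Type} [Fintype J] [DecidableEq J]

theorem skew_mul {δ : ℤ} {γ μ θ : Matrix J J (MonoidAlgebra ℤ Γ)}
    (hδ : δ * δ = 1) (hμ : adj μ = μ) (hθ : γ * μ = θ - δ • adj θ) :
    μ * adj γ = -(δ • (γ * μ)) := by
  have h1 : μ * adj γ = adj (γ * μ) := by rw [adj_mul, hμ]
  rw [h1, hθ, adj_sub, adj_zsmul, adj_adj, smul_sub, smul_smul, hδ, one_smul]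
  abel

/-- homotopy equivalences act on formations -/
theorem feh_he {δ : ℤ} (hδ : δ * δ = 1) {γ μ θ : Matrix J J (MonoidAlgebra ℤ Γ)} (hμ : adj μ = μ)
    (hθ : γ * μ = θ - δ • adj θ) (g₁ g₀ h₁ h₀ s t : Matrix J J (MonoidAlgebra ℤ Γ))
    (hg : g₁ * μ = μ * g₀) (hh : h₁ * μ = μ * h₀) (e1 : h₁ * g₁ = 1 - μ * s)
    (e0 : h₀ * g₀ = 1 - s * μ) (f1 : g₁ * h₁ = 1 - μ * t) (f0 : g₀ * h₀ = 1 - t * μ) :
    FEH δ γ μ (g₁ * γ * adj g₀) μ := by
  obtain ⟨r, r1, r2, r3, r4⟩ : ∃ r : Matrix J J (MonoidAlgebra ℤ Γ), g₁ * h₁ = 1 - μ * r ∧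
      g₀ * h₀ = 1 - r * μ ∧ r * g₁ = g₀ * s ∧ h₀ * r = s * h₁ := by
    have k1 : μ * t = 1 - g₁ * h₁ := by rw [f1]; abel
    have k0 : t * μ = 1 - g₀ * h₀ := by rw [f0]; abel
    have l1 : μ * s = 1 - h₁ * g₁ := by rw [e1]; abel
    have l0 : s * μ = 1 - h₀ * g₀ := by rw [e0]; abel
    refine ⟨t * μ * t + g₀ * s * h₁, ?_, ?_, ?_, ?_⟩
    · have h9 : μ * (t * μ * t + g₀ * s * h₁) = (μ * t) * (μ * t) + g₁ * (μ * s) * h₁ := by
        rw [Matrix.mul_add]
        congr 1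
        · simp only [Matrix.mul_assoc]
        · rw [← Matrix.mul_assoc, ← Matrix.mul_assoc, ← hg]
          simp only [Matrix.mul_assoc]
      rw [h9, k1, l1]
      noncomm_ring
    · have h9 : (t * μ * t + g₀ * s * h₁) * μ = (t * μ) * (t * μ) + g₀ * (s * μ) * h₀ := by
        rw [Matrix.add_mul]
        congr 1
        · simp only [Matrix.mul_assoc]
        · rw [Matrix.mul_assoc _ h₁, hh]
          simp only [Matrix.mul_assoc]
      rw [h9, k0, l0]
      noncomm_ring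
    · have h9 : (t * μ * t + g₀ * s * h₁) * g₁ = (t * μ) * (t * g₁) + g₀ * s * (h₁ * g₁) := by
        rw [Matrix.add_mul]; simp only [Matrix.mul_assoc]
      have h10 : (t * μ) * (t * g₁) = t * ((μ * t) * g₁) := by simp only [Matrix.mul_assoc]
      have h11 : (μ * t) * g₁ = μ * (g₀ * s) := by
        rw [k1, ← Matrix.mul_assoc μ, ← hg, Matrix.mul_assoc, l1]
        noncomm_ring
      rw [h9, h10, h11, ← Matrix.mul_assoc, k0, e1]
      have h12 : g₀ * s * (1 - μ * s) = g₀ * s - g₀ * ((s * μ) * s) := by noncomm_ring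
      rw [h12, l0]
      noncomm_ring
    · have h9 : h₀ * (t * μ * t + g₀ * s * h₁) = (h₀ * t) * (μ * t) + (h₀ * g₀) * s * h₁ := by
        rw [Matrix.mul_add]; simp only [Matrix.mul_assoc]
      have h10 : (h₀ * t) * (μ * t) = h₀ * ((t * μ) * t) := by simp only [Matrix.mul_assoc]
      have h11 : h₀ * (t * μ) = (s * μ) * h₀ := by
        rw [k0, l0]; noncomm_ring
      have h12 : (s * μ) * h₀ * t = s * ((μ * s) * h₁) := by
        have h13 : (s * μ) * h₀ * t = s * (h₁ * (μ * t)) := by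
          rw [← Matrix.mul_assoc h₁, hh]; simp only [Matrix.mul_assoc]
        rw [h13, k1, l1]; noncomm_ring
      rw [h9, h10, ← Matrix.mul_assoc h₀, h11, h12, e0]
      noncomm_ring
  -- the two invertible matrices
  let G₁ : (Matrix (J ⊕ J) (J ⊕ J) (MonoidAlgebra ℤ Γ))ˣ :=
    { val := fromBlocks g₁ μ (-s) h₀
      inv := fromBlocks h₁ (-μ) r g₀
      val_inv := by
        rw [fromBlocks_multiply, ← fromBlocks_one]
        congr 1
        · rw [r1]; abel
        · rw [Matrix.mul_neg, hg]; abel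
        · rw [Matrix.neg_mul, r4]; abel
        · rw [Matrix.neg_mul, Matrix.mul_neg, neg_neg, e0]; abel
      inv_val := by
        rw [fromBlocks_multiply, ← fromBlocks_one]
        congr 1
        · rw [e1]
          simp only [Matrix.neg_mul, Matrix.mul_neg, neg_neg]
          abel
        · rw [Matrix.neg_mul, hh]; abel
        · rw [Matrix.mul_neg, r3]; abel
        · rw [r2]; abel }
  let G₀ : (Matrix (J ⊕ J) (J ⊕ J) (MonoidAlgebra ℤ Γ))ˣ :=
    { val := fromBlocks g₀ 1 (-(s * μ)) h₀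
      inv := fromBlocks h₀ (-1) (r * μ) g₀
      val_inv := by
        rw [fromBlocks_multiply, ← fromBlocks_one]
        congr 1
        · rw [r2, Matrix.one_mul]; abel
        · rw [Matrix.mul_neg, Matrix.mul_one, Matrix.one_mul]; abel
        · rw [Matrix.neg_mul, Matrix.mul_assoc, ← hh, ← Matrix.mul_assoc, ← Matrix.mul_assoc, r4]
          abel
        · rw [Matrix.neg_mul, Matrix.mul_neg, neg_neg, Matrix.mul_one, e0]; abel
      inv_val := by
        rw [fromBlocks_multiply, ← fromBlocks_one]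
        congr 1
        · rw [e0]
          simp only [Matrix.neg_mul, Matrix.mul_neg, neg_neg, Matrix.one_mul]
          abel
        · rw [Matrix.neg_mul, Matrix.one_mul, Matrix.mul_one]; abel
        · rw [Matrix.mul_neg, Matrix.mul_assoc, ← hg, ← Matrix.mul_assoc, ← Matrix.mul_assoc, r3]
          abel
        · rw [r2, Matrix.mul_one]; abel }
  have hG : G₁.val * fromBlocks μ 0 0 1 = fromBlocks μ 0 0 1 * G₀.val := by
    change fromBlocks g₁ μ (-s) h₀ * _ = _ * fromBlocks g₀ 1 (-(s * μ)) h₀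
    rw [fromBlocks_multiply, fromBlocks_multiply]
    congr 1
    · simp only [Matrix.mul_zero, Matrix.zero_mul, add_zero, zero_add, hg]
    · simp only [Matrix.mul_zero, Matrix.zero_mul, add_zero, zero_add, Matrix.mul_one]
    · simp only [Matrix.mul_zero, Matrix.zero_mul, add_zero, zero_add, Matrix.neg_mul,
        Matrix.one_mul]
    · simp only [Matrix.mul_zero, Matrix.zero_mul, add_zero, zero_add, Matrix.one_mul,
        Matrix.mul_one]
  let B : (Matrix (J ⊕ J) (J ⊕ J) (MonoidAlgebra ℤ Γ))ˣ :=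
    { val := adj G₀.val
      inv := adj (G₀⁻¹).val
      val_inv := by rw [← adj_mul, G₀.inv_mul, adj_one]
      inv_val := by rw [← adj_mul, G₀.mul_inv, adj_one] }
  have hB : adj (B⁻¹).val = (G₀⁻¹).val := by
    change adj (adj (G₀⁻¹).val) = _
    rw [adj_adj]
  let e : (J ⊕ J) ⊕ J ≃ J ⊕ (J ⊕ J) := Equiv.sumAssoc J J J
  have hre : ∀ γ' : Matrix J J (MonoidAlgebra ℤ Γ), FEH δ
      (fromBlocks (fromBlocks γ' 0 0 0) 0 0 0 : Matrix ((J ⊕ J) ⊕ J) ((J ⊕ J) ⊕ J)
        (MonoidAlgebra ℤ Γ)) (fromBlocks (fromBlocks μ 0 0 1) 0 0 1) γ' μ := by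
    intro γ'
    refine FEH.trans ?_ (feh_flip (A := J) hδ γ' μ)
    refine FEH.trans (FEH.of_eq ?_ ?_) (FEH.re e _ _)
    · ext1 i j
      rcases i with (i | i) | i <;> rcases j with (j | j) | j <;> rfl
    · rw [← fromBlocks_one (l := J) (m := J)]
      ext1 i j
      rcases i with (i | i) | i <;> rcases j with (j | j) | j <;> rfl
  refine (hre γ).symm.trans ?_
  refine FEH.trans ?_ (hre (g₁ * γ * adj g₀))
  refine (xt_row G₁ _ _).trans ((xt_col B _ _).trans ?_)
  have m1 : G₁.val * fromBlocks μ 0 0 1 * adj (B⁻¹).val = fromBlocks μ 0 0 1 := by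
    rw [hB, hG, Matrix.mul_assoc, G₀.mul_inv, Matrix.mul_one]
  have m2 : G₁.val * fromBlocks γ 0 0 0 * B.val
      = fromBlocks (g₁ * γ * adj g₀) (-(g₁ * γ * μ * adj s)) (-(s * γ * adj g₀))
        (s * γ * μ * adj s) := by
    change fromBlocks g₁ μ (-s) h₀ * fromBlocks γ 0 0 0 * adj (fromBlocks g₀ 1 (-(s * μ)) h₀) = _
    rw [adj_fromBlocks, fromBlocks_multiply, fromBlocks_multiply]
    simp only [Matrix.mul_zero, Matrix.zero_mul, add_zero, zero_add, adj_one, adj_neg, adj_mul,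
      hμ, Matrix.neg_mul, Matrix.mul_neg, neg_neg, Matrix.mul_assoc]
  rw [m1, m2]
  have hsk := skew_mul hδ hμ hθ
  refine (xt_up (fromBlocks 0 0 (s * γ * adj g₀) (-(s * θ * adj s))) _ _).trans
    (FEH.of_eq ?_ rfl)
  congr 1
  rw [adj_fromBlocks, fromBlocks_smul, Pool.Agent.R719.LF.fb_sub, fromBlocks_multiply,
    fromBlocks_add]
  congr 1
  · simp only [adj_zero, smul_zero, sub_zero, Matrix.mul_zero, Matrix.zero_mul, add_zero]
  · have h9 : μ * (g₀ * adj γ * adj s) = -(δ • (g₁ * γ * μ * adj s)) := by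
      rw [← Matrix.mul_assoc, ← Matrix.mul_assoc, ← hg, Matrix.mul_assoc g₁, hsk]
      simp only [Matrix.mul_neg, Matrix.neg_mul, Matrix.mul_smul, Matrix.smul_mul,
        Matrix.mul_assoc]
    simp only [adj_mul, adj_adj, Matrix.zero_mul, add_zero, zero_sub, Matrix.mul_neg,
      Matrix.mul_smul, adj_neg]
    rw [← Matrix.mul_assoc g₀, h9, smul_neg, smul_smul, hδ, one_smul]
    abel
  · simp only [adj_zero, smul_zero, sub_zero, Matrix.mul_zero, Matrix.zero_mul, add_zero,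
      zero_add, Matrix.one_mul]
    abel
  · have h9 : s * γ * μ * adj s = s * θ * adj s - δ • (s * adj θ * adj s) := by
      rw [Matrix.mul_assoc s γ, hθ]
      simp only [Matrix.mul_sub, Matrix.sub_mul, Matrix.mul_smul, Matrix.smul_mul]
    rw [h9]
    simp only [adj_neg, adj_mul, adj_adj, smul_neg, Matrix.zero_mul, zero_add, Matrix.one_mul,
      Matrix.mul_assoc]
    abel

end he

end Pool.Agent.T9h15.RO
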