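import Pool.Agent.T9h15.RO.El
import Pool.Agent.T9h15.RO.He
import Pool.Agent.T9h15.RV.Ef
import Pool.Agent.T9h15.UO.TrO

set_option autoImplicit false
set_option linter.unusedSectionVars false
set_option linter.unusedSimpArgs false

/-! The elimination of directed letters for unilateral formations. -/

namespace Pool.Agent.T9h15.RO

open Matrix TH6.LF TH57.Thr Relation Pool.Agent.T9h15.UN Pool.Agent.T9h15.RV Pool.Agent.T9h15.UO

variable {Γ : Type} [Group Γ] {Λ : Type} [MulAction Γ Λ]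
  {κ₁ κ₀ : Type} [Fintype κ₁] [DecidableEq κ₁] [Fintype κ₀] [DecidableEq κ₀]

theorem fb_sq' (B : Matrix κ₁ κ₀ (MonoidAlgebra ℤ Γ)) (C : Matrix κ₀ κ₁ (MonoidAlgebra ℤ Γ))
    (n : ℕ) : (fromBlocks 0 B C 0) ^ (2 * n) = fromBlocks ((B * C) ^ n) 0 0 ((C * B) ^ n) := by
  induction n with
  | zero => simp [fromBlocks_one]
  | succ n ih =>
    rw [show 2 * (n + 1) = 2 * n + 1 + 1 from rfl, pow_succ, pow_succ, ih, fromBlocks_multiply,
      fromBlocks_multiply]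
    simp only [Matrix.mul_zero, Matrix.zero_mul, add_zero, zero_add, pow_succ, Matrix.mul_assoc]

theorem pow_move (A : Matrix κ₀ κ₁ (MonoidAlgebra ℤ Γ)) (B : Matrix κ₁ κ₀ (MonoidAlgebra ℤ Γ))
    (N : ℕ) : (B * A) ^ (N + 1) = B * (A * B) ^ N * A := by
  induction N with
  | zero => simp
  | succ N ih =>
    rw [pow_succ, ih, pow_succ (A * B)]
    simp only [Matrix.mul_assoc]

/-- the sign matrix -/
noncomputable def cs (Γ : Type) [Group Γ] (δ : ℤ) (κ₁ κ₀ : Type) [DecidableEq κ₁] [DecidableEq κ₀] :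
    Matrix (κ₁ ⊕ κ₀) (κ₁ ⊕ κ₀) (MonoidAlgebra ℤ Γ) := fromBlocks 1 0 0 (-(δ • 1))

/-- labels of the first copy -/
def lo₁ (b : Bool) (ℓ₁ : κ₁ → Λ) (ℓ₀ : κ₀ → Λ) : κ₁ ⊕ κ₀ → Om Λ :=
  Sum.elim (fun k => ⟨b, ℓ₁ k⟩) (fun k => ⟨!b, ℓ₀ k⟩)

/-- labels of the second copy -/
def lo₀ (b : Bool) (ℓ₁ : κ₁ → Λ) (ℓ₀ : κ₀ → Λ) : κ₁ ⊕ κ₀ → Om Λ :=
  Sum.elim (fun k => ⟨!b, ℓ₁ k⟩) (fun k => ⟨b, ℓ₀ k⟩)

theorem neg_one_ne {κ : Type} [Fintype κ] [DecidableEq κ] {δ : ℤ} {k l : κ} {g : Γ}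
    (h : ((-(δ • 1) : Matrix κ κ (MonoidAlgebra ℤ Γ)) k l).coeff g ≠ 0) : k = l ∧ g = 1 := by
  rw [← neg_smul] at h
  exact coeff_one_ne (coeff_smul_ne h)

/-- the twisting data of a differential -/
noncomputable def dgo {δ : ℤ} (hδ : δ * δ = 1) (b : Bool) (ℓ₁ : κ₁ → Λ) (ℓ₀ : κ₀ → Λ)
    (d : Matrix κ₁ κ₀ (MonoidAlgebra ℤ Γ)) (sd : Sup ℓ₁ ℓ₀ (fun x y => x = y) d) :
    Dg Γ (lo₁ b ℓ₁ ℓ₀) (lo₀ b ℓ₁ ℓ₀) ot δ where
  c := cs Γ δ κ₁ κ₀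
  μ := um d
  χ₀ := fromBlocks 0 0 (adj d) 0
  cc := by
    rw [cs, fromBlocks_multiply, ← fromBlocks_one]
    simp only [Matrix.one_mul, Matrix.zero_mul, Matrix.mul_zero, add_zero, zero_add,
      Matrix.neg_mul, Matrix.mul_neg, neg_neg, smul_one_mul_smul_one hδ, neg_zero]
  ac := by
    rw [cs, adj_fromBlocks, adj_zero, adj_zero, adj_one, adj_neg, adj_zsmul, adj_one]
  am := by rw [um, adj_fromBlocks, adj_zero, adj_zero, adj_adj]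
  cm := by
    rw [cs, um, fromBlocks_multiply, fromBlocks_multiply, fromBlocks_smul, fromBlocks_neg]
    simp only [Matrix.one_mul, Matrix.mul_one, Matrix.zero_mul, Matrix.mul_zero, add_zero, zero_add,
      Matrix.neg_mul, Matrix.mul_neg, neg_neg, smul_neg, Matrix.smul_mul, Matrix.mul_smul,
      smul_smul, hδ, one_smul, smul_zero, neg_zero]
  ev := by
    rw [cs, um, fromBlocks_multiply, adj_fromBlocks, fromBlocks_smul, Pool.Agent.R719.LF.fb_sub]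
    simp only [Matrix.one_mul, Matrix.mul_one, Matrix.zero_mul, Matrix.mul_zero, add_zero, zero_add,
      Matrix.neg_mul, Matrix.mul_neg, adj_zero, adj_adj, smul_zero, sub_zero, zero_sub,
      Matrix.mul_smul, neg_zero]
  sc := by
    rintro (k | k) (l | l) g hg
    · obtain ⟨rfl, rfl⟩ := coeff_one_ne hg
      rw [one_smul]; rfl
    · exact absurd rfl hg
    · exact absurd rfl hg
    · obtain ⟨rfl, rfl⟩ := neg_one_ne hg
      rw [one_smul]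
      change (⟨b, ℓ₀ k⟩ : Om Λ) = ⟨!(!b), ℓ₀ k⟩
      rw [Bool.not_not]
  sc' := by
    rintro (k | k) (l | l) g hg
    · obtain ⟨rfl, rfl⟩ := coeff_one_ne hg
      rw [one_smul]
      change (⟨b, ℓ₁ k⟩ : Om Λ) = ⟨!(!b), ℓ₁ k⟩
      rw [Bool.not_not]
    · exact absurd rfl hg
    · exact absurd rfl hg
    · obtain ⟨rfl, rfl⟩ := neg_one_ne hg
      rw [one_smul]
      rfl
  sm := by
    rintro (k | k) (l | l) g hg
    · exact absurd rfl hg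
    · have h1 : ℓ₁ k = g • ℓ₀ l := sd k l g hg
      change (⟨b, ℓ₁ k⟩ : Om Λ) = ⟨b, g • ℓ₀ l⟩
      rw [h1]
    · have h1 : ℓ₀ k = g • ℓ₁ l := sd.adj inv_eq (fun x y h => h.symm) k l g hg
      change (⟨!b, ℓ₀ k⟩ : Om Λ) = ⟨!b, g • ℓ₁ l⟩
      rw [h1]
    · exact absurd rfl hg

theorem skew_swap {δ : ℤ} (hδ : δ * δ = 1) {I : Type} {L : Matrix I I (MonoidAlgebra ℤ Γ)}
    (h : L + δ • adj L = 0) : L = -(δ • adj L) := eq_neg_of_add_eq_zero_left h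

/-- the pair of structure matrices -/
noncomputable def xo (δ : ℤ) (α : Matrix κ₀ κ₁ (MonoidAlgebra ℤ Γ))
    (β : Matrix κ₁ κ₀ (MonoidAlgebra ℤ Γ)) :
    Matrix ((κ₁ ⊕ κ₀) ⊕ (κ₁ ⊕ κ₀)) ((κ₁ ⊕ κ₀) ⊕ (κ₁ ⊕ κ₀)) (MonoidAlgebra ℤ Γ) :=
  di (cc α β * cs Γ δ κ₁ κ₀) (adj (cc α β) * cs Γ δ κ₁ κ₀)

theorem cc_cs (δ : ℤ) (α : Matrix κ₀ κ₁ (MonoidAlgebra ℤ Γ))
    (β : Matrix κ₁ κ₀ (MonoidAlgebra ℤ Γ)) :
    cc α β * cs Γ δ κ₁ κ₀ = fromBlocks 0 ((-δ) • β) α 0 := by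
  rw [cc, cs, fromBlocks_multiply]
  simp only [Matrix.mul_one, Matrix.zero_mul, Matrix.mul_zero, add_zero, zero_add,
    Matrix.mul_neg, Matrix.mul_smul, neg_smul, neg_zero, smul_zero]

theorem elim_odd (S : SysL Γ Λ) (hno : ∀ g : Γ, g = g⁻¹ → g = 1) {δ : ℤ} (hδ : δ * δ = 1)
    (b : Bool) (ℓ₁ : κ₁ → Λ) (ℓ₀ : κ₀ → Λ)
    (d : Matrix κ₁ κ₀ (MonoidAlgebra ℤ Γ)) (α : Matrix κ₀ κ₁ (MonoidAlgebra ℤ Γ))
    (β : Matrix κ₁ κ₀ (MonoidAlgebra ℤ Γ)) (sd : Sup ℓ₁ ℓ₀ (fun x y => x = y) d)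
    (sa : Sup ℓ₀ ℓ₁ (S.R (!b)) α) (sb : Sup ℓ₁ ℓ₀ (S.R b) β)
    (ka : α * d + δ • adj (α * d) = 0) (kb : β * adj d + δ • adj (β * adj d) = 0)
    (N : ℕ) (Z : Matrix κ₁ κ₀ (MonoidAlgebra ℤ Γ)) (hN : (α * β) ^ N = adj d * Z) :
    ∃ (S' : SysL Γ Λ) (α' : Matrix κ₀ κ₁ (MonoidAlgebra ℤ Γ))
      (β' : Matrix κ₁ κ₀ (MonoidAlgebra ℤ Γ)) (N' : ℕ) (Z' : Matrix κ₁ κ₀ (MonoidAlgebra ℤ Γ)),
      (∀ b n x z, Wk S'.R b (2 * n + 1) x z → ∃ n', n ≤ n' ∧ Wk S.R b (2 * n' + 1) x z) ∧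
      (∀ b x z, S'.R b x z → ∃ g : Γ, g • x = z ∧ g • z = x) ∧
      Sup ℓ₀ ℓ₁ (S'.R (!b)) α' ∧ Sup ℓ₁ ℓ₀ (S'.R b) β' ∧
      (α' * d + δ • adj (α' * d) = 0) ∧ (β' * adj d + δ • adj (β' * adj d) = 0) ∧
      (α' * β') ^ N' = adj d * Z' ∧
      FEH δ (ug δ α β) (um d) (ug δ α' β') (um d) := by
  let D := dgo hδ b ℓ₁ ℓ₀ d sd
  have hDc : D.c = cs Γ δ κ₁ κ₀ := rfl
  have hDμ : D.μ = um d := rfl
  have hδ' : ∀ n : ℕ, (-δ) ^ n * (-δ) ^ n = 1 := by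
    intro n
    rw [← mul_pow, neg_mul_neg, hδ, one_pow]
  -- the structure matrices commute with the differential
  have hcomm : cc α β * cs Γ δ κ₁ κ₀ * um d = um d * (adj (cc α β) * cs Γ δ κ₁ κ₀) := by
    have h1 := cc_um ka kb
    have h2 : cs Γ δ κ₁ κ₀ * um d = -(δ • (um d * cs Γ δ κ₁ κ₀)) := D.cm
    rw [Matrix.mul_assoc, h2, Matrix.mul_neg, Matrix.mul_smul, ← Matrix.mul_assoc, h1,
      Matrix.smul_mul, smul_smul, Matrix.mul_assoc, ← neg_smul]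
    have h3 : -(δ * -δ) = 1 := by rw [mul_neg, neg_neg, hδ]
    rw [h3, one_smul]
  have hcm : CM D.μ (xo δ α β) := ⟨_, _, rfl, hcomm⟩
  have hdag : D.tw.dag (xo δ α β) = xo δ α β := by
    unfold xo
    rw [D.dag_di, hDc, adj_mul, adj_mul, adj_adj]
    have h1 : adj (cs Γ δ κ₁ κ₀) = cs Γ δ κ₁ κ₀ := D.ac
    have h2 : cs Γ δ κ₁ κ₀ * cs Γ δ κ₁ κ₀ = 1 := D.cc
    rw [h1]
    congr 1
    · rw [← Matrix.mul_assoc, h2, Matrix.one_mul]
    · rw [← Matrix.mul_assoc, h2, Matrix.one_mul]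
  have hX : Sup (Sum.elim (lo₁ b ℓ₁ ℓ₀) (lo₀ b ℓ₁ ℓ₀)) (Sum.elim (lo₁ b ℓ₁ ℓ₀) (lo₀ b ℓ₁ ℓ₀))
      (lr S.R) (xo δ α β) := by
    apply sup_di
    · rw [cc_cs]
      rintro (k | k) (l | l) g hg
      · exact absurd rfl hg
      · refine ⟨rfl, ?_⟩
        have h1 : ((-δ • β) k l).coeff g ≠ 0 := hg
        rw [Matrix.smul_apply, coeff_zsmul'] at h1
        exact sb k l g (right_ne_zero_of_mul h1)
      · refine ⟨?_, ?_⟩
        · change b = !(!b)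
          rw [Bool.not_not]
        · exact sa k l g hg
      · exact absurd rfl hg
    · rw [adj_cc, cc_cs]
      rintro (k | k) (l | l) g hg
      · exact absurd rfl hg
      · refine ⟨?_, ?_⟩
        · change b = !(!b)
          rw [Bool.not_not]
        · have h1 : ((-δ • adj α) k l).coeff g ≠ 0 := hg
          rw [Matrix.smul_apply, coeff_zsmul'] at h1
          exact sa.adj (S.inv _) (S.symm _) k l g (right_ne_zero_of_mul h1)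
      · refine ⟨rfl, ?_⟩
        exact sb.adj (S.inv _) (S.symm _) k l g hg
      · exact absurd rfl hg
  -- the power
  obtain ⟨k₀, hk₀⟩ : ∃ k₀, xo δ α β ^ (4 * N + 3 + 1) = nh D.μ k₀ := by
    have h1 : (cc α β * cs Γ δ κ₁ κ₀) ^ (2 * (N + 1)) = D.μ * ((-δ) ^ (N + 1) •
        fromBlocks 0 (Z * (α * β)) (-(δ • (adj β * Z * α))) 0) := by
      rw [cc_cs, fb_sq', Matrix.smul_mul, Matrix.mul_smul, smul_pow, smul_pow, pow_move, hN,
        pow_succ (α * β), hN, hDμ, um, Matrix.mul_smul, fromBlocks_multiply, fromBlocks_smul]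
      have h2 : β * adj d = -(δ • (d * adj β)) := by
        have h3 := eq_neg_of_add_eq_zero_left kb
        rwa [adj_mul, adj_adj] at h3
      congr 1
      · rw [← Matrix.mul_assoc β, h2]
        simp only [Matrix.zero_mul, Matrix.mul_neg, Matrix.neg_mul, Matrix.smul_mul,
          Matrix.mul_smul, Matrix.mul_assoc, zero_add]
      · simp only [Matrix.zero_mul, Matrix.mul_zero, add_zero, smul_zero]
      · simp only [Matrix.zero_mul, Matrix.mul_zero, add_zero, smul_zero]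
      · simp only [Matrix.zero_mul, Matrix.mul_zero, add_zero, Matrix.mul_assoc]
    have h2 := D.pow_nh hδ hcomm hdag h1
    have h3 : 2 * (2 * (N + 1)) = 4 * N + 3 + 1 := by ring
    rw [h3] at h2
    exact h2
  obtain ⟨ρ, X, E, F, h1, h2, h3, h4, h5, ⟨k, h6⟩, h7, h8, h9⟩ := el_final' D ot_ot ot_smul
    (lt := lto Γ) lto_asymm lto_inv hδ (inv_lr S.inv) S.mt hX hcm hdag hk₀
  obtain ⟨A, B, rfl, hAB⟩ := h5
  obtain ⟨⟨E₁, E₀, rfl, hE⟩, ⟨F₁, F₀, rfl, hF⟩, ⟨t, ht⟩, ⟨s, hs⟩⟩ := h8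
  obtain ⟨hAs, -⟩ := sup_of_di h4
  -- the blocks of `A`
  obtain ⟨α', β', hA, hαS, hβS⟩ : ∃ (α' : Matrix κ₀ κ₁ (MonoidAlgebra ℤ Γ))
      (β' : Matrix κ₁ κ₀ (MonoidAlgebra ℤ Γ)), A = cc α' β' * cs Γ δ κ₁ κ₀ ∧
      (∀ k l g, (α' k l).coeff g ≠ 0 → ρ ⟨!b, ℓ₀ k⟩ ⟨b, g • ℓ₁ l⟩ ∧
        ne ot (lto Γ) ⟨!b, ℓ₀ k⟩ ⟨b, g • ℓ₁ l⟩) ∧
      (∀ k l g, (β' k l).coeff g ≠ 0 → ρ ⟨b, ℓ₁ k⟩ ⟨!b, g • ℓ₀ l⟩ ∧
        ne ot (lto Γ) ⟨b, ℓ₁ k⟩ ⟨!b, g • ℓ₀ l⟩) := by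
    refine ⟨A.toBlocks₂₁, (-δ) • A.toBlocks₁₂, ?_, fun k l g hg => hAs (Sum.inr k) (Sum.inl l) g hg,
      fun k l g hg => hAs (Sum.inl k) (Sum.inr l) g ?_⟩
    · have e0 : (-δ) • ((-δ) • A.toBlocks₁₂) = A.toBlocks₁₂ := by
        rw [smul_smul, neg_mul_neg, hδ, one_smul]
      rw [cc_cs, e0]
      conv_lhs => rw [← fromBlocks_toBlocks A]
      congr 1
      · ext k l g
        by_contra h
        have h9 := hAs (Sum.inl k) (Sum.inl l) g h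
        have h10 := (rev_of_ne h9.2).1
        revert h10
        simp [lo₁, om_smul]
      · ext k l g
        by_contra h
        have h9 := hAs (Sum.inr k) (Sum.inr l) g h
        have h10 := (rev_of_ne h9.2).1
        revert h10
        simp [lo₁, om_smul]
    · rw [Matrix.smul_apply, coeff_zsmul'] at hg
      exact right_ne_zero_of_mul hg
  let S' : SysL Γ Λ := sysOf ρ h1 h2 (ne ot (lto Γ)) ne_inv ne_rev
  have hB : B = adj (cc α' β') * cs Γ δ κ₁ κ₀ := by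
    rw [D.dag_di, hDc] at h7
    obtain ⟨-, h10⟩ := di_inj h7
    have e1 : adj (cs Γ δ κ₁ κ₀) = cs Γ δ κ₁ κ₀ := D.ac
    have e2 : cs Γ δ κ₁ κ₀ * cs Γ δ κ₁ κ₀ = 1 := D.cc
    rw [← h10, hA, adj_mul, e1, ← Matrix.mul_assoc, e2, Matrix.one_mul]
  have hsk : cc α' β' * um d = (-δ) • (um d * adj (cc α' β')) := by
    have e1 : cs Γ δ κ₁ κ₀ * um d = -(δ • (um d * cs Γ δ κ₁ κ₀)) := D.cm
    have e2 : cs Γ δ κ₁ κ₀ * cs Γ δ κ₁ κ₀ = 1 := D.cc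
    have e3 : cc α' β' * cs Γ δ κ₁ κ₀ * um d = um d * (adj (cc α' β') * cs Γ δ κ₁ κ₀) := by
      rw [← hA, ← hB]; exact hAB
    have e4 : -(δ • (cc α' β' * um d * cs Γ δ κ₁ κ₀)) = um d * (adj (cc α' β') * cs Γ δ κ₁ κ₀) := by
      rw [← e3, Matrix.mul_assoc (cc α' β') (cs Γ δ κ₁ κ₀) (um d), e1]
      simp only [Matrix.mul_neg, Matrix.mul_smul, Matrix.mul_assoc]
    have e5 := congrArg (fun M => M * cs Γ δ κ₁ κ₀) e4
    simp only [Matrix.neg_mul, Matrix.smul_mul, Matrix.mul_assoc, e2, Matrix.mul_one] at e5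
    rw [← e5, neg_smul, smul_neg, neg_neg, smul_smul, hδ, one_smul]
  obtain ⟨hkb, hka⟩ : (β' * adj d + δ • adj (β' * adj d) = 0) ∧
      (α' * d + δ • adj (α' * d) = 0) := by
    rw [adj_cc, cc, cc, um, fromBlocks_multiply, fromBlocks_multiply, fromBlocks_smul] at hsk
    obtain ⟨e1, -, -, e2⟩ := fromBlocks_inj.mp hsk
    simp only [Matrix.zero_mul, zero_add, Matrix.mul_zero, add_zero] at e1 e2
    constructor
    · rw [e1, adj_zsmul, adj_mul, adj_adj, smul_smul, ← e1]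
      have e3 : δ * -δ = -1 := by rw [mul_neg, hδ]
      rw [e3, neg_one_smul, add_neg_cancel]
    · rw [e2, adj_zsmul, adj_mul, adj_adj, adj_adj, smul_smul, ← e2]
      have e3 : δ * -δ = -1 := by rw [mul_neg, hδ]
      rw [e3, neg_one_smul, add_neg_cancel]
  refine ⟨S', α', β', 4 * N + 3 + 1, (-δ) ^ (4 * N + 3 + 1) •
    (k * A ^ (4 * N + 3 + 1)).toBlocks₁₂, ?_, ?_, ?_, ?_, hka, hkb, ?_, ?_⟩
  · intro b n x z h
    have e1 := rn_of_wk _ _ _ _ h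
    have hl : ∀ x y : Om Λ, lr S'.R x y → TransGen (lr S.R) x y := by
      rintro ⟨s, x⟩ ⟨t, y⟩ ⟨h9, h10⟩
      simp only at h9 h10
      rw [h9]
      exact h3 _ _ h10.1
    have e2 : ∀ m (x z : Om Λ), Rn (lr S'.R) m x z → ∃ m', m ≤ m' ∧ Rn (lr S.R) m' x z := by
      intro m
      induction m with
      | zero => intro x z h; exact ⟨0, le_rfl, h⟩
      | succ m ih =>
        rintro x z ⟨y, h9, h10⟩
        obtain ⟨m', h11, h12⟩ := ih x y h9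
        obtain ⟨j, hj⟩ := rn_of_tg (hl _ _ h10)
        exact ⟨m' + (j + 1), by omega, h12.trans hj⟩
    obtain ⟨m', h9, h10⟩ := e2 _ _ _ e1
    obtain ⟨h11, h12⟩ := wk_of_rn _ _ _ h10
    simp only [Bool.not_not] at h11 h12
    have h13 := sd_par h12
    obtain ⟨n', hn'⟩ : ∃ n', m' = 2 * n' + 1 := ⟨m' / 2, by omega⟩
    subst hn'
    exact ⟨n', by omega, h11⟩
  · intro b x z h
    exact (rev_of_ne h.2).2
  · intro k l g hg
    change ρ ⟨!b, ℓ₀ k⟩ ⟨!(!b), g • ℓ₁ l⟩ ∧ ne ot (lto Γ) ⟨!b, ℓ₀ k⟩ ⟨!(!b), g • ℓ₁ l⟩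
    rw [Bool.not_not]
    exact hαS k l g hg
  · intro k l g hg
    exact hβS k l g hg
  · -- the power
    have e1 : A ^ (2 * (4 * N + 3 + 1)) = um d * (k * A ^ (4 * N + 3 + 1)) := by
      rw [two_mul, pow_add]
      have e2 : A ^ (4 * N + 3 + 1) = um d * k := by
        rw [di_pow] at h6
        exact (di_inj h6).1
      nth_rewrite 1 [e2]
      rw [Matrix.mul_assoc]
    generalize k * A ^ (4 * N + 3 + 1) = W at e1 ⊢
    rw [hA, cc_cs, fb_sq', Matrix.smul_mul, Matrix.mul_smul, smul_pow, smul_pow, um,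
      ← fromBlocks_toBlocks W, fromBlocks_multiply] at e1
    obtain ⟨-, -, -, e3⟩ := fromBlocks_inj.mp e1
    rw [Matrix.zero_mul, add_zero] at e3
    have e4 := congrArg (fun M => (-δ) ^ (4 * N + 3 + 1) • M) e3
    simp only [smul_smul, hδ', one_smul] at e4
    rw [e4, Matrix.mul_smul]
  · -- the equivalence
    have hu : ∀ (a : Matrix κ₀ κ₁ (MonoidAlgebra ℤ Γ)) (c : Matrix κ₁ κ₀ (MonoidAlgebra ℤ Γ)),
        (1 + cc a c * cs Γ δ κ₁ κ₀) * cs Γ δ κ₁ κ₀ = ug δ a c := by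
      intro a c
      have e2 : cs Γ δ κ₁ κ₀ * cs Γ δ κ₁ κ₀ = 1 := D.cc
      rw [Matrix.add_mul, Matrix.mul_assoc, e2, Matrix.one_mul, Matrix.mul_one, cs, cc,
        fromBlocks_add, ug]
      simp only [add_zero, zero_add]
    obtain ⟨θa, hθa⟩ : ∃ θ : Matrix κ₀ κ₀ (MonoidAlgebra ℤ Γ), α * d = θ - δ • adj θ :=
      even_of_skew hno hδ (S.irr (!b)) (ℓ := ℓ₀) _ ka
        (sa.mul inv_eq (fun x y z h h' => by rw [← h']; exact h) sd)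
    obtain ⟨θb, hθb⟩ : ∃ θ : Matrix κ₁ κ₁ (MonoidAlgebra ℤ Γ), β * adj d = θ - δ • adj θ :=
      even_of_skew hno hδ (S.irr b) (ℓ := ℓ₁) _ kb
        (sb.mul inv_eq (fun x y z h h' => by rw [← h']; exact h)
          (sd.adj inv_eq (fun x y h => h.symm)))
    have hθ : ug δ α β * um d = fromBlocks θb d 0 θa - δ • adj (fromBlocks θb d 0 θa) := by
      rw [ug, um, fromBlocks_multiply, adj_fromBlocks, fromBlocks_smul,
        Pool.Agent.R719.LF.fb_sub]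
      simp only [Matrix.one_mul, Matrix.mul_zero, Matrix.zero_mul, zero_add, add_zero, adj_zero,
        smul_zero, sub_zero, zero_sub, Matrix.neg_mul, Matrix.smul_mul, hθa, hθb]
    have ht' : E₁ * F₁ = 1 - um d * t ∧ E₀ * F₀ = 1 - t * um d := by
      rw [di_mul, ← di_one, nh, di_sub] at ht
      exact di_inj ht
    have hs' : F₁ * E₁ = 1 - um d * s ∧ F₀ * E₀ = 1 - s * um d := by
      rw [di_mul, ← di_one, nh, di_sub] at hs
      exact di_inj hs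
    have hhe := feh_he hδ (γ := ug δ α β) (μ := um d) D.am hθ E₁ E₀ F₁ F₀ s t hE hF hs'.1 hs'.2
      ht'.1 ht'.2
    obtain ⟨χ, hχ⟩ := h9
    have h10 : E₁ * ug δ α β * adj E₀ = ug δ α' β' + um d * (χ - δ • adj χ) := by
      have e1 : E₁ * (1 + cc α β * cs Γ δ κ₁ κ₀) * (cs Γ δ κ₁ κ₀ * adj E₀ * cs Γ δ κ₁ κ₀)
          - (1 + A) = um d * ((χ - δ • adj χ) * cs Γ δ κ₁ κ₀) := by
        rw [xo, D.dag_di, ← di_one, di_add, di_add, di_mul, di_mul, nh, di_sub] at hχ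
        exact (di_inj hχ).1
      have e2 := congrArg (fun M => M * cs Γ δ κ₁ κ₀) e1
      have e3 : cs Γ δ κ₁ κ₀ * cs Γ δ κ₁ κ₀ = 1 := D.cc
      simp only [Matrix.sub_mul, Matrix.mul_assoc, e3, Matrix.mul_one] at e2
      rw [← hu α β, ← hu α' β', ← hA]
      have e4 : E₁ * ((1 + cc α β * cs Γ δ κ₁ κ₀) * cs Γ δ κ₁ κ₀) * adj E₀
          = E₁ * ((1 + cc α β * cs Γ δ κ₁ κ₀) * (cs Γ δ κ₁ κ₀ * adj E₀)) := by
        simp only [Matrix.mul_assoc]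
      rw [e4, ← sub_eq_iff_eq_add']
      exact e2
    rw [h10] at hhe
    exact hhe.trans (FEH.up χ _ _).symm

end Pool.Agent.T9h15.RO
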