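import Pool.Agent.T9h15.RO.Eo

set_option autoImplicit false
set_option linter.unusedSectionVars false
set_option linter.unusedSimpArgs false

/-! The general exchange move for unilateral formations. -/

namespace Pool.Agent.T9h15.RO

open Matrix TH6.LF TH57.Thr Pool.Agent.T9h15.UN Pool.Agent.T9h15.RV Pool.Agent.T9h15.UO

variable {Γ : Type} [Group Γ]
  {κ₁ κ₀ κ₁' κ₀' : Type} [Fintype κ₁] [DecidableEq κ₁] [Fintype κ₀] [DecidableEq κ₀]
  [Fintype κ₁'] [DecidableEq κ₁'] [Fintype κ₀'] [DecidableEq κ₀']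

/-- the exchange move along a chain map -/
theorem fe_exch {δ : ℤ} (hδ : δ * δ = 1) (d : Matrix κ₁ κ₀ (MonoidAlgebra ℤ Γ))
    (d' : Matrix κ₁' κ₀' (MonoidAlgebra ℤ Γ)) (Y₁ : Matrix κ₁ κ₁' (MonoidAlgebra ℤ Γ))
    (Y₀ : Matrix κ₀ κ₀' (MonoidAlgebra ℤ Γ)) (hY : d * Y₀ = Y₁ * d')
    (α : Matrix κ₀ κ₁ (MonoidAlgebra ℤ Γ))
    (β' : Matrix κ₁' κ₀' (MonoidAlgebra ℤ Γ)) (θ : Matrix κ₀ κ₀ (MonoidAlgebra ℤ Γ))
    (h : α * d = θ - δ • adj θ) (θ' : Matrix κ₁' κ₁' (MonoidAlgebra ℤ Γ))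
    (h' : β' * adj d' = θ' - δ • adj θ') :
    FE δ (ug δ α (Y₁ * β' * adj Y₀)) (um d) (ug δ (adj Y₀ * α * Y₁) β') (um d') := by
  have hst := fe_star (δ := δ) (fromBlocks d 0 0 d') (fromBlocks α 0 0 0)
    (fromBlocks 0 0 0 β') (uu (-Y₁)) (ul (-(adj Y₀))) (TT_uu _) (TT_ul _) (by
      rw [uu_val, ul_val, adj_fromBlocks, fromBlocks_multiply, fromBlocks_multiply]
      simp only [adj_one, adj_neg, adj_zero, adj_adj, Matrix.one_mul, Matrix.mul_one,
        Matrix.mul_zero, Matrix.zero_mul, add_zero, zero_add, Matrix.neg_mul, Matrix.mul_neg,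
        neg_zero, hY])
  rw [uu_inv, ul_inv, fromBlocks_multiply, fromBlocks_multiply, fromBlocks_multiply,
    fromBlocks_multiply] at hst
  simp only [neg_neg, Matrix.one_mul, Matrix.mul_one, Matrix.mul_zero, Matrix.zero_mul, add_zero,
    zero_add] at hst
  have l1 := fe_elim hδ d d' α (Y₁ * β' * adj Y₀) (Y₁ * β') (β' * adj Y₀) β' θ' h' (by
    have h1 : d' * adj β' = adj (θ' - δ • adj θ') := by rw [← h', adj_mul, adj_adj]
    rw [adj_mul, adj_adj, ← Matrix.mul_assoc, hY, Matrix.mul_assoc, Matrix.mul_assoc,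
      ← Matrix.mul_smul, ← Matrix.mul_add, h1, h', adj_even hδ, Matrix.mul_zero])
  refine l1.symm.trans (hst.trans ?_)
  refine (fe_swap hδ _ _ _).trans ?_
  rw [adj_fromBlocks]
  refine (fe_comm _ _ _ _ _ _ _ _ _ _ _ _).trans ?_
  have l2 := fe_elim hδ (adj d') (adj d) β' (adj Y₀ * α * Y₁) (adj Y₀ * α) (α * Y₁) α θ
    (by rw [adj_adj]; exact h) (by
      have h1 : adj d' * adj Y₁ = adj Y₀ * adj d := by
        rw [← adj_mul, ← adj_mul, hY]
      have h2 : adj d * adj α = adj (θ - δ • adj θ) := by rw [← h, adj_mul]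
      rw [adj_adj, adj_mul, ← Matrix.mul_assoc, h1, Matrix.mul_assoc, Matrix.mul_assoc,
        ← Matrix.mul_smul, ← Matrix.mul_add, h, h2, adj_even hδ, Matrix.mul_zero])
  simp only [adj_zero]
  refine l2.trans ((fe_swap hδ _ _ _).trans (FE.of_eq rfl ?_))
  rw [adj_adj]

end Pool.Agent.T9h15.RO
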