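import Pool.Agent.T9h15.RO.Tr

set_option autoImplicit false
set_option linter.unusedSectionVars false
set_option linter.unusedSimpArgs false

/-! Unilateral formations supported near the edges of a tree: simple equivalence, conditions on the
stabilisers of long paths only. -/

namespace Pool.Agent.T9h15.RO

open Matrix TH6.LF TH57.Thr Pool.Agent.T9h15.UN Pool.Agent.T9h15.RV Pool.Agent.T9h15.UO

variable {Γ : Type} [Group Γ]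

theorem stageS {δ : ℤ} (hδ : δ * δ = 1) (hno : ∀ g : Γ, g = g⁻¹ → g = 1) (m : ℕ) :
    ∀ {Λ : Type} [MulAction Γ Λ] (S : SysL Γ Λ) (b : Bool)
      (_ : ∀ (n : ℕ) (x z : Λ), m ≤ n → Wk S.R b (2 * n + 1) x z →
        ∀ F : Subgroup Γ, F ≤ MulAction.stabilizer Γ x ⊓ MulAction.stabilizer Γ z → F.FG → KQ F)
      {κ₁ κ₀ : Type} [Fintype κ₁] [DecidableEq κ₁] [Fintype κ₀] [DecidableEq κ₀]
      (ℓ₁ : κ₁ → Λ) (ℓ₀ : κ₀ → Λ)
      (d : Matrix κ₁ κ₀ (MonoidAlgebra ℤ Γ)) (α : Matrix κ₀ κ₁ (MonoidAlgebra ℤ Γ))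
      (β : Matrix κ₁ κ₀ (MonoidAlgebra ℤ Γ)) (_ : Sup ℓ₁ ℓ₀ (fun x y => x = y) d)
      (_ : Sup ℓ₀ ℓ₁ (S.R (!b)) α) (_ : Sup ℓ₁ ℓ₀ (S.R b) β)
      (_ : α * d + δ • adj (α * d) = 0) (_ : β * adj d + δ • adj (β * adj d) = 0)
      (N : ℕ) (Z : Matrix κ₁ κ₀ (MonoidAlgebra ℤ Γ)) (_ : (α * β) ^ N = adj d * Z),
      Ztr δ (ug δ α β) (um d) := by
  induction m with
  | zero =>
    intro Λ _ S b hyp κ₁ κ₀ _ _ _ _ ℓ₁ ℓ₀ d α β sd sa sb ka kb N Z hN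
    obtain ⟨M₁, M₀, _, _, _, _, t₁, t₀, d', α', β', Z', sd', sa', sb', ka', kb', hN', hfe'⟩ :=
      refine_odd S hno hδ b ℓ₁ ℓ₀ d α β sd sa sb ka kb N Z hN
    refine Ztr.of_FE hfe' ?_
    refine odd_end (refSysL S b).toSys hno hδ b ?_ t₁ t₀ d' α' β' sd' sa' sb' ka' kb' (N + 1) Z' hN'
    intro P F hF hfg
    have h2 : Wk S.R b (2 * 0 + 1) P.1.1 P.1.2 := ⟨P.1.1, rfl, P.2⟩
    refine hyp 0 _ _ (Nat.le_refl _) h2 F (fun g hg => ?_) hfg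
    have h7 := hF hg
    rw [MulAction.mem_stabilizer_iff] at h7
    rw [Subgroup.mem_inf, MulAction.mem_stabilizer_iff, MulAction.mem_stabilizer_iff]
    exact ⟨congrArg (fun P => P.1.1) h7, congrArg (fun P => P.1.2) h7⟩
  | succ m ih =>
    intro Λ _ S b hyp κ₁ κ₀ _ _ _ _ ℓ₁ ℓ₀ d α β sd sa sb ka kb N Z hN
    obtain ⟨M₁, M₀, _, _, _, _, t₁, t₀, d', α', β', Z', sd', sa', sb', ka', kb', hN', hfe'⟩ :=
      refine_odd S hno hδ b ℓ₁ ℓ₀ d α β sd sa sb ka kb N Z hN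
    refine Ztr.of_FE (hfe'.trans (fe_swap hδ d' α' β')) ?_
    refine ih (refSysL S b) (!b) ?_ t₀ t₁ (adj d') β' α' (sd'.adj inv_eq (fun x y h => h.symm))
      (by rw [Bool.not_not]; exact sb') sa' kb' (by rw [adj_adj]; exact ka') (N + 1 + 1) _
      (pow_exch d' α' β' kb' (N + 1) Z' hN')
    intro n P Q hmn hPQ F hF hfg
    have h2 : Wk S.R (!b) (2 * n + 1) P.1.1 Q.1.1 := wk_proj S.toSys b _ _ _ _ hPQ
    have h3 : Wk S.R (!b) (2 * n + 1 + 1) P.1.2 Q.1.1 := by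
      refine wk_cons _ _ _ P.1.1 _ ?_ h2
      rw [Bool.not_not, sd_odd]
      exact S.symm b _ _ P.2
    have h4 : Wk S.R b (2 * (n + 1) + 1) P.1.2 Q.1.2 := ⟨Q.1.1, h3, Q.2⟩
    refine hyp (n + 1) P.1.2 Q.1.2 (by omega) h4 F (fun g hg => ?_) hfg
    have h7 := hF hg
    rw [Subgroup.mem_inf, MulAction.mem_stabilizer_iff, MulAction.mem_stabilizer_iff] at h7 ⊢
    exact ⟨congrArg (fun P => P.1.2) h7.1, congrArg (fun P => P.1.2) h7.2⟩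

variable {V : Type} {T : SimpleGraph V} [MulAction Γ V]
variable {κ₁ κ₀ : Type} [Fintype κ₁] [DecidableEq κ₁] [Fintype κ₀] [DecidableEq κ₀]

/-- **The theorem in terms of the tree.** -/
theorem odd_mainS (hT : T.IsTree) (hΓ : ∀ (g : Γ) (u v : V), T.Adj u v → T.Adj (g • u) (g • v))
    (hno : ∀ g : Γ, g = g⁻¹ → g = 1) (m : ℕ)
    (hm : ∀ x y : V, m ≤ T.dist x y → ∀ F : Subgroup Γ,
      F ≤ MulAction.stabilizer Γ x ⊓ MulAction.stabilizer Γ y → F.FG → KQ F)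
    {δ : ℤ} (hδ : δ * δ = 1) (ℓ₁ : κ₁ → V × V) (ℓ₀ : κ₀ → V × V)
    (hℓ₀ : ∀ k, T.Adj (ℓ₀ k).1 (ℓ₀ k).2)
    (d : Matrix κ₁ κ₀ (MonoidAlgebra ℤ Γ)) (α : Matrix κ₀ κ₁ (MonoidAlgebra ℤ Γ))
    (β : Matrix κ₁ κ₀ (MonoidAlgebra ℤ Γ)) (sd : Sup ℓ₁ ℓ₀ (fun x y => x = y) d)
    (sa : Sup ℓ₀ ℓ₁ (trR T true) α) (sb : Sup ℓ₁ ℓ₀ (trR T false) β)
    (ka : α * d + δ • adj (α * d) = 0) (kb : β * adj d + δ • adj (β * adj d) = 0)
    (hs : ∃ B₁ B₂ : Matrix (κ₁ ⊕ κ₀) (κ₁ ⊕ κ₀) (MonoidAlgebra ℤ Γ),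
      ug δ α β * B₁ + um d * B₂ = 1) :
    Ztr δ (ug δ α β) (um d) := by
  obtain ⟨N, Z, hN⟩ := nilp_odd hT hΓ hδ ℓ₁ ℓ₀ hℓ₀ d α β sd sa sb ka kb hs
  refine stageS hδ hno m (treeSysL hT hΓ) false ?_ ℓ₁ ℓ₀ d α β sd sa sb ka kb N Z hN
  intro n x z hmn hxz F hF hfg
  have hx := wk_adj _ _ _ _ hxz
  have hd := (wk_dist hT _ _ _ _ hx hxz).2
  have e3 : st false (2 * n + 1) x = mv false x := by
    unfold st
    have : (2 * n + 1) % 2 = 1 := by omega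
    rw [this]; simp
  rw [e3] at hd
  refine hm (mv false x) (mv false z) (by omega) F (fun g hg => ?_) hfg
  have h7 := hF hg
  rw [Subgroup.mem_inf, MulAction.mem_stabilizer_iff, MulAction.mem_stabilizer_iff] at h7 ⊢
  exact ⟨by rw [← mv_smul, h7.1], by rw [← mv_smul, h7.2]⟩

end Pool.Agent.T9h15.RO
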