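import Pool.Agent.T9h15.RO.Ex
import Pool.Agent.T9h15.RV.St

set_option autoImplicit false
set_option linter.unusedSectionVars false
set_option linter.unusedSimpArgs false

/-! Refinement of the labels of a unilateral formation. -/

namespace Pool.Agent.T9h15.RO

open Matrix TH6.LF TH57.Thr Pool.Agent.T9h15.UN Pool.Agent.T9h15.RV Pool.Agent.T9h15.UO

variable {Γ : Type} [Group Γ]

section pj

variable {κ M ι : Type} [Fintype κ] [DecidableEq κ] [Fintype M]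

/-- the matrix of a map of index sets -/
noncomputable def pj (Γ : Type) [Group Γ] (π : M → κ) : Matrix κ M (MonoidAlgebra ℤ Γ) :=
  (1 : Matrix κ κ (MonoidAlgebra ℤ Γ)).submatrix id π

theorem adj_pj (π : M → κ) :
    adj (pj Γ π) = (1 : Matrix κ κ (MonoidAlgebra ℤ Γ)).submatrix π id := by
  rw [pj, adj_submatrix, adj_one]

theorem mul_pj (π : M → κ) (A : Matrix ι κ (MonoidAlgebra ℤ Γ)) :
    A * pj Γ π = A.submatrix id π := by
  ext1 i j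
  simp [pj, Matrix.mul_apply, Matrix.one_apply]

theorem adj_pj_mul (π : M → κ) (A : Matrix κ ι (MonoidAlgebra ℤ Γ)) :
    adj (pj Γ π) * A = A.submatrix π id := by
  rw [adj_pj]
  ext1 i j
  simp [Matrix.mul_apply, Matrix.one_apply]

theorem coeff_pj_mul (π : M → κ) (X : Matrix M ι (MonoidAlgebra ℤ Γ)) (k : κ) (i : ι) (g : Γ) :
    ((pj Γ π * X) k i).coeff g = ∑ m, if k = π m then (X m i).coeff g else 0 := by
  rw [Matrix.mul_apply, coeff_sum']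
  refine Finset.sum_congr rfl fun m _ => ?_
  rw [pj, Matrix.submatrix_apply, Matrix.one_apply, id]
  split_ifs
  · rw [one_mul]
  · rw [zero_mul]; rfl

theorem coeff_mul_adj_pj (π : M → κ) (X : Matrix ι M (MonoidAlgebra ℤ Γ)) (i : ι) (k : κ) (g : Γ) :
    ((X * adj (pj Γ π)) i k).coeff g = ∑ m, if π m = k then (X i m).coeff g else 0 := by
  rw [Matrix.mul_apply, coeff_sum']
  refine Finset.sum_congr rfl fun m _ => ?_
  rw [adj_pj, Matrix.submatrix_apply, Matrix.one_apply, id]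
  split_ifs
  · rw [mul_one]
  · rw [mul_zero]; rfl

end pj

variable {Λ : Type} [MulAction Γ Λ]

section rl

variable {κ : Type}

/-- the refined index set -/
abbrev RX {κ : Type} (F : κ → Finset Λ) : Type := Σ k, {y // y ∈ F k}

/-- the refined labels -/
def rl (S : Sys Γ Λ) (b : Bool) (ℓ : κ → Λ) (F : κ → Finset Λ)
    (hF : ∀ k, ∀ y ∈ F k, S.R b (ℓ k) y) (m : RX F) : Ref S b :=
  ⟨(ℓ m.1, m.2.1), hF m.1 m.2.1 m.2.2⟩

theorem rx_ext {F : κ → Finset Λ} {m n : RX F} (h : m.1 = n.1) (h' : m.2.1 = n.2.1) : m = n := by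
  rcases m with ⟨k, y, hy⟩
  rcases n with ⟨l, z, hz⟩
  simp only at h h'
  subst h h'
  rfl

end rl

variable {κ₁ κ₀ : Type} [Fintype κ₁] [DecidableEq κ₁] [Fintype κ₀] [DecidableEq κ₀]

theorem exists_sets (S : Sys Γ Λ) (b : Bool) (ℓ₁ : κ₁ → Λ) (ℓ₀ : κ₀ → Λ)
    (d β : Matrix κ₁ κ₀ (MonoidAlgebra ℤ Γ)) (sd : Sup ℓ₁ ℓ₀ (fun x y => x = y) d)
    (sb : Sup ℓ₁ ℓ₀ (S.R b) β) :
    ∃ (F₁ : κ₁ → Finset Λ) (F₀ : κ₀ → Finset Λ), (∀ k, ∀ y ∈ F₁ k, S.R b (ℓ₁ k) y) ∧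
      (∀ l, ∀ y ∈ F₀ l, S.R b (ℓ₀ l) y) ∧
      (∀ k l g, (β k l).coeff g ≠ 0 → g • ℓ₀ l ∈ F₁ k ∧ g⁻¹ • ℓ₁ k ∈ F₀ l) ∧
      (∀ k l g y, (d k l).coeff g ≠ 0 → y ∈ F₀ l → g • y ∈ F₁ k) := by
  classical
  let F₀ : κ₀ → Finset Λ := fun l =>
    Finset.univ.biUnion fun k => (β k l).coeff.support.image fun g => g⁻¹ • ℓ₁ k
  let F₁ : κ₁ → Finset Λ := fun k =>
    (Finset.univ.biUnion fun l => (β k l).coeff.support.image fun g => g • ℓ₀ l) ∪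
    (Finset.univ.biUnion fun l => (d k l).coeff.support.biUnion fun g =>
      (F₀ l).image fun y => g • y)
  have h0 : ∀ l, ∀ y ∈ F₀ l, S.R b (ℓ₀ l) y := by
    intro l y hy
    simp only [F₀, Finset.mem_biUnion, Finset.mem_univ, true_and, Finset.mem_image,
      Finsupp.mem_support_iff] at hy
    obtain ⟨k, g, hg, rfl⟩ := hy
    have h1 := S.inv b g⁻¹ _ _ (sb k l g hg)
    rw [inv_smul_smul] at h1
    exact S.symm b _ _ h1
  refine ⟨F₁, F₀, ?_, h0, ?_, ?_⟩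
  · intro k y hy
    simp only [F₁, Finset.mem_union, Finset.mem_biUnion, Finset.mem_univ, true_and,
      Finset.mem_image, Finsupp.mem_support_iff] at hy
    rcases hy with ⟨l, g, hg, rfl⟩ | ⟨l, g, hg, y', hy', rfl⟩
    · exact sb k l g hg
    · have h1 := S.inv b g _ _ (h0 l y' hy')
      have h2 : ℓ₁ k = g • ℓ₀ l := sd k l g hg
      rwa [← h2] at h1
  · intro k l g hg
    constructor
    · simp only [F₁, Finset.mem_union, Finset.mem_biUnion, Finset.mem_univ, true_and,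
        Finset.mem_image, Finsupp.mem_support_iff]
      exact Or.inl ⟨l, g, hg, rfl⟩
    · simp only [F₀, Finset.mem_biUnion, Finset.mem_univ, true_and, Finset.mem_image,
        Finsupp.mem_support_iff]
      exact ⟨k, g, hg, rfl⟩
  · intro k l g y hg hy
    simp only [F₁, Finset.mem_union, Finset.mem_biUnion, Finset.mem_univ, true_and,
      Finset.mem_image, Finsupp.mem_support_iff]
    exact Or.inr ⟨l, g, hg, y, hy, rfl⟩

section trunc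

variable (S : Sys Γ Λ) (b : Bool) (ℓ₁ : κ₁ → Λ) (ℓ₀ : κ₀ → Λ) (F₁ : κ₁ → Finset Λ)
  (F₀ : κ₀ → Finset Λ) (h₁ : ∀ k, ∀ y ∈ F₁ k, S.R b (ℓ₁ k) y)
  (h₀ : ∀ l, ∀ y ∈ F₀ l, S.R b (ℓ₀ l) y)

/-- labels of related refined indices -/
theorem refR_rl {m : RX F₁} {n : RX F₀} {g : Γ}
    (h : refR S b b (rl S b ℓ₁ F₁ h₁ m) (g • rl S b ℓ₀ F₀ h₀ n)) :
    m.2.1 = g • ℓ₀ n.1 ∧ n.2.1 = g⁻¹ • ℓ₁ m.1 := by
  unfold refR at h
  rw [if_pos rfl, ref_smul] at h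
  have e1 : g • ℓ₀ n.1 = m.2.1 := congrArg Prod.fst h
  have e2 : g • n.2.1 = ℓ₁ m.1 := congrArg Prod.snd h
  exact ⟨e1.symm, by rw [← e2, inv_smul_smul]⟩

theorem refR_rl_of {m : RX F₁} {n : RX F₀} {g : Γ} (e1 : m.2.1 = g • ℓ₀ n.1)
    (e2 : n.2.1 = g⁻¹ • ℓ₁ m.1) :
    refR S b b (rl S b ℓ₁ F₁ h₁ m) (g • rl S b ℓ₀ F₀ h₀ n) := by
  unfold refR
  rw [if_pos rfl, ref_smul]
  refine Prod.ext e1.symm ?_
  change g • n.2.1 = ℓ₁ m.1
  rw [e2, smul_inv_smul]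

include S b ℓ₁ ℓ₀ h₁ h₀ in
theorem pj_eq (d : Matrix κ₁ κ₀ (MonoidAlgebra ℤ Γ)) (sd : Sup ℓ₁ ℓ₀ (fun x y => x = y) d)
    (hd : ∀ k l g y, (d k l).coeff g ≠ 0 → y ∈ F₀ l → g • y ∈ F₁ k) :
    d * pj Γ (Sigma.fst : RX F₀ → κ₀) = pj Γ (Sigma.fst : RX F₁ → κ₁) *
      trc (fun x y => x = y) (rl S b ℓ₁ F₁ h₁) (rl S b ℓ₀ F₀ h₀)
        (d.submatrix (Sigma.fst : RX F₁ → κ₁) (Sigma.fst : RX F₀ → κ₀)) := by
  classical
  ext k n g
  rw [mul_pj, coeff_pj_mul]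
  simp only [coeff_trc, Matrix.submatrix_apply, id]
  by_cases hg : (d k n.1).coeff g = 0
  · rw [hg]
    symm
    refine Finset.sum_eq_zero fun m _ => ?_
    by_cases hk : k = m.1
    · rw [if_pos hk, ← hk, hg, ite_self]
    · rw [if_neg hk]
  · let m₀ : RX F₁ := ⟨k, g • n.2.1, hd k n.1 g n.2.1 hg n.2.2⟩
    rw [Finset.sum_eq_single_of_mem m₀ (Finset.mem_univ _)]
    · have e1 : rl S b ℓ₁ F₁ h₁ m₀ = g • rl S b ℓ₀ F₀ h₀ n := by
        apply Subtype.ext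
        rw [ref_smul]
        refine Prod.ext ?_ rfl
        exact sd k n.1 g hg
      rw [if_pos rfl, if_pos e1]
    · intro m _ hm
      by_cases hk : k = m.1
      · rw [if_pos hk, if_neg]
        intro h
        apply hm
        have e1 := congrArg (fun P => P.1.2) h
        exact rx_ext hk.symm e1
      · rw [if_neg hk]

include S b ℓ₁ ℓ₀ h₁ h₀ in
theorem pj_conj (β : Matrix κ₁ κ₀ (MonoidAlgebra ℤ Γ))
    (hβ : ∀ k l g, (β k l).coeff g ≠ 0 → g • ℓ₀ l ∈ F₁ k ∧ g⁻¹ • ℓ₁ k ∈ F₀ l) :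
    β = pj Γ (Sigma.fst : RX F₁ → κ₁) *
      trc (refR S b b) (rl S b ℓ₁ F₁ h₁) (rl S b ℓ₀ F₀ h₀)
        (β.submatrix (Sigma.fst : RX F₁ → κ₁) (Sigma.fst : RX F₀ → κ₀)) *
      adj (pj Γ (Sigma.fst : RX F₀ → κ₀)) := by
  classical
  ext k l g
  rw [coeff_mul_adj_pj]
  simp only [coeff_pj_mul, coeff_trc, Matrix.submatrix_apply]
  by_cases hg : (β k l).coeff g = 0
  · rw [hg]
    symm
    refine Finset.sum_eq_zero fun n _ => ?_
    by_cases hl : n.1 = l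
    · rw [if_pos hl]
      refine Finset.sum_eq_zero fun m _ => ?_
      by_cases hk : k = m.1
      · rw [if_pos hk, ← hk, hl, hg, ite_self]
      · rw [if_neg hk]
    · rw [if_neg hl]
  · obtain ⟨e1, e0⟩ := hβ k l g hg
    let m₀ : RX F₁ := ⟨k, g • ℓ₀ l, e1⟩
    let n₀ : RX F₀ := ⟨l, g⁻¹ • ℓ₁ k, e0⟩
    rw [Finset.sum_eq_single_of_mem n₀ (Finset.mem_univ _), if_pos rfl,
      Finset.sum_eq_single_of_mem m₀ (Finset.mem_univ _), if_pos rfl]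
    · have h := refR_rl_of S b ℓ₁ ℓ₀ F₁ F₀ h₁ h₀ (m := m₀) (n := n₀) (g := g) rfl rfl
      rw [if_pos h]
    · intro m _ hm
      by_cases hk : k = m.1
      · rw [if_pos hk, if_neg]
        intro h
        apply hm
        have e2 := refR_rl S b ℓ₁ ℓ₀ F₁ F₀ h₁ h₀ h
        exact rx_ext hk.symm e2.1
      · rw [if_neg hk]
    · intro n _ hn
      by_cases hl : n.1 = l
      · rw [if_pos hl]
        refine Finset.sum_eq_zero fun m _ => ?_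
        by_cases hk : k = m.1
        · rw [if_pos hk, if_neg]
          intro h
          apply hn
          have e2 := refR_rl S b ℓ₁ ℓ₀ F₁ F₀ h₁ h₀ h
          refine rx_ext hl ?_
          rw [e2.2, ← hk]
        · rw [if_neg hk]
      · rw [if_neg hl]

include S b ℓ₁ h₁ in
theorem pj_zero (X : Matrix (RX F₁) (RX F₁) (MonoidAlgebra ℤ Γ))
    (hX : Sup (rl S b ℓ₁ F₁ h₁) (rl S b ℓ₁ F₁ h₁) (refR S b b) X)
    (h : pj Γ (Sigma.fst : RX F₁ → κ₁) * X * adj (pj Γ (Sigma.fst : RX F₁ → κ₁)) = 0) :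
    X = 0 := by
  classical
  ext m n g
  by_contra hg
  have hmn := hX m n g hg
  have e0 := refR_rl S b ℓ₁ ℓ₁ F₁ F₁ h₁ h₁ hmn
  have h1 := congrArg (fun Y => (Y m.1 n.1).coeff g) h
  simp only [coeff_mul_adj_pj, coeff_pj_mul] at h1
  rw [Finset.sum_eq_single_of_mem n (Finset.mem_univ _), if_pos rfl,
      Finset.sum_eq_single_of_mem m (Finset.mem_univ _), if_pos rfl] at h1
  · exact hg h1
  · intro m' _ hm
    by_cases hk : m.1 = m'.1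
    · rw [if_pos hk]
      by_contra h2
      apply hm
      have e2 := refR_rl S b ℓ₁ ℓ₁ F₁ F₁ h₁ h₁ (hX m' n g h2)
      exact rx_ext hk.symm (e2.1.trans e0.1.symm)
    · rw [if_neg hk]
  · intro n' _ hn
    by_cases hl : n'.1 = n.1
    · rw [if_pos hl]
      refine Finset.sum_eq_zero fun m' _ => ?_
      by_cases hk : m.1 = m'.1
      · rw [if_pos hk]
        by_contra h2
        apply hn
        have e2 := refR_rl S b ℓ₁ ℓ₁ F₁ F₁ h₁ h₁ (hX m' n' g h2)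
        refine rx_ext hl ?_
        rw [e2.2, e0.2, hk]
      · rw [if_neg hk]
    · rw [if_neg hl]

end trunc

theorem refine_odd (S : SysL Γ Λ) (hno : ∀ g : Γ, g = g⁻¹ → g = 1) {δ : ℤ} (hδ : δ * δ = 1)
    (b : Bool) (ℓ₁ : κ₁ → Λ) (ℓ₀ : κ₀ → Λ)
    (d : Matrix κ₁ κ₀ (MonoidAlgebra ℤ Γ)) (α : Matrix κ₀ κ₁ (MonoidAlgebra ℤ Γ))
    (β : Matrix κ₁ κ₀ (MonoidAlgebra ℤ Γ)) (sd : Sup ℓ₁ ℓ₀ (fun x y => x = y) d)
    (sa : Sup ℓ₀ ℓ₁ (S.R (!b)) α) (sb : Sup ℓ₁ ℓ₀ (S.R b) β)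
    (ka : α * d + δ • adj (α * d) = 0) (kb : β * adj d + δ • adj (β * adj d) = 0)
    (N : ℕ) (Z : Matrix κ₁ κ₀ (MonoidAlgebra ℤ Γ)) (hN : (α * β) ^ N = adj d * Z) :
    ∃ (M₁ M₀ : Type) (_ : Fintype M₁) (_ : DecidableEq M₁) (_ : Fintype M₀)
      (_ : DecidableEq M₀) (t₁ : M₁ → Ref S.toSys b) (t₀ : M₀ → Ref S.toSys b)
      (d' : Matrix M₁ M₀ (MonoidAlgebra ℤ Γ)) (α' : Matrix M₀ M₁ (MonoidAlgebra ℤ Γ))
      (β' : Matrix M₁ M₀ (MonoidAlgebra ℤ Γ)) (Z' : Matrix M₁ M₀ (MonoidAlgebra ℤ Γ)),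
      Sup t₁ t₀ (fun x y => x = y) d' ∧ Sup t₀ t₁ ((refSysL S b).R (!b)) α' ∧
      Sup t₁ t₀ ((refSysL S b).R b) β' ∧
      (α' * d' + δ • adj (α' * d') = 0) ∧ (β' * adj d' + δ • adj (β' * adj d') = 0) ∧
      (α' * β') ^ (N + 1) = adj d' * Z' ∧
      FE δ (ug δ α β) (um d) (ug δ α' β') (um d') := by
  classical
  obtain ⟨F₁, F₀, h₁, h₀, hβ, hd⟩ := exists_sets S.toSys b ℓ₁ ℓ₀ d β sd sb
  have e1 := pj_eq S.toSys b ℓ₁ ℓ₀ F₁ F₀ h₁ h₀ d sd hd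
  have e2 := pj_conj S.toSys b ℓ₁ ℓ₀ F₁ F₀ h₁ h₀ β hβ
  have s1 := sup_trc (ℓ := rl S.toSys b ℓ₁ F₁ h₁) (ℓ' := rl S.toSys b ℓ₀ F₀ h₀)
    (fun x y => x = y) (d.submatrix (Sigma.fst : RX F₁ → κ₁) (Sigma.fst : RX F₀ → κ₀))
  have s2 := sup_trc (ℓ := rl S.toSys b ℓ₁ F₁ h₁) (ℓ' := rl S.toSys b ℓ₀ F₀ h₀)
    (refR S.toSys b b) (β.submatrix (Sigma.fst : RX F₁ → κ₁) (Sigma.fst : RX F₀ → κ₀))
  generalize trc (fun x y => x = y) (rl S.toSys b ℓ₁ F₁ h₁) (rl S.toSys b ℓ₀ F₀ h₀)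
    (d.submatrix (Sigma.fst : RX F₁ → κ₁) (Sigma.fst : RX F₀ → κ₀)) = d' at e1 s1
  generalize trc (refR S.toSys b b) (rl S.toSys b ℓ₁ F₁ h₁) (rl S.toSys b ℓ₀ F₀ h₀)
    (β.submatrix (Sigma.fst : RX F₁ → κ₁) (Sigma.fst : RX F₀ → κ₀)) = β' at e2 s2
  have hnb : (!b) ≠ b := by cases b <;> decide
  have sα : Sup (rl S.toSys b ℓ₀ F₀ h₀) (rl S.toSys b ℓ₁ F₁ h₁) ((refSysL S b).R (!b))
      (adj (pj Γ (Sigma.fst : RX F₀ → κ₀)) * α * pj Γ (Sigma.fst : RX F₁ → κ₁)) := by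
    rw [adj_pj_mul, mul_pj]
    intro n m g hg
    change refR S.toSys b (!b) _ _
    unfold refR
    rw [if_neg hnb]
    exact sa _ _ _ hg
  have kb' : β' * adj d' + δ • adj (β' * adj d') = 0 := by
    apply pj_zero S.toSys b ℓ₁ F₁ h₁
    · have h5 : Sup (rl S.toSys b ℓ₁ F₁ h₁) (rl S.toSys b ℓ₁ F₁ h₁) (refR S.toSys b b)
          (β' * adj d') :=
        s2.mul inv_eq (fun x y z h h' => by rw [← h']; exact h)
          (s1.adj inv_eq (fun x y h => h.symm))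
      exact h5.add ((h5.adj ((refSys S.toSys b).inv b) ((refSys S.toSys b).symm b)).zsmul δ)
    · have h6 : adj (pj Γ (Sigma.fst : RX F₀ → κ₀)) * adj d
          = adj d' * adj (pj Γ (Sigma.fst : RX F₁ → κ₁)) := by
        rw [← adj_mul, e1, adj_mul]
      have h7 : β * adj d = pj Γ (Sigma.fst : RX F₁ → κ₁) * (β' * adj d')
          * adj (pj Γ (Sigma.fst : RX F₁ → κ₁)) := by
        rw [e2, Matrix.mul_assoc, h6]
        simp only [Matrix.mul_assoc]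
      rw [Matrix.mul_add, Matrix.add_mul, ← h7, Matrix.mul_smul, Matrix.smul_mul]
      have h8 : pj Γ (Sigma.fst : RX F₁ → κ₁) * adj (β' * adj d')
          * adj (pj Γ (Sigma.fst : RX F₁ → κ₁)) = adj (β * adj d) := by
        rw [h7, adj_mul _ (adj (pj Γ (Sigma.fst : RX F₁ → κ₁))), adj_mul (pj Γ _) (β' * adj d'),
          adj_adj, Matrix.mul_assoc]
      rw [h8, kb]
  have ka' : adj (pj Γ (Sigma.fst : RX F₀ → κ₀)) * α * pj Γ (Sigma.fst : RX F₁ → κ₁) * d'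
      = adj (pj Γ (Sigma.fst : RX F₀ → κ₀)) * (α * d) * pj Γ (Sigma.fst : RX F₀ → κ₀) := by
    rw [Matrix.mul_assoc _ (pj Γ _) d', ← e1]
    simp only [Matrix.mul_assoc]
  obtain ⟨θa, hθa⟩ : ∃ θ : Matrix κ₀ κ₀ (MonoidAlgebra ℤ Γ), α * d = θ - δ • adj θ :=
    even_of_skew hno hδ (S.irr (!b)) (ℓ := ℓ₀) _ ka
      (sa.mul inv_eq (fun x y z h h' => by rw [← h']; exact h) sd)
  obtain ⟨θb, hθb⟩ : ∃ θ : Matrix (RX F₁) (RX F₁) (MonoidAlgebra ℤ Γ),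
      β' * adj d' = θ - δ • adj θ :=
    even_of_skew hno hδ ((refSys S.toSys b).irr b) (ℓ := rl S.toSys b ℓ₁ F₁ h₁) _ kb'
      (s2.mul inv_eq (fun x y z h h' => by rw [← h']; exact h)
        (s1.adj inv_eq (fun x y h => h.symm)))
  refine ⟨RX F₁, RX F₀, inferInstance, inferInstance, inferInstance, inferInstance,
    rl S.toSys b ℓ₁ F₁ h₁, rl S.toSys b ℓ₀ F₀ h₀, d', _, β',
    adj (pj Γ (Sigma.fst : RX F₁ → κ₁)) * (Z * (α * pj Γ (Sigma.fst : RX F₁ → κ₁) * β')),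
    s1, sα, s2, ?_, kb', ?_, ?_⟩
  · have h3 : adj (pj Γ (Sigma.fst : RX F₀ → κ₀)) * (α * d) * pj Γ (Sigma.fst : RX F₀ → κ₀)
        + δ • adj (adj (pj Γ (Sigma.fst : RX F₀ → κ₀)) * (α * d) * pj Γ (Sigma.fst : RX F₀ → κ₀))
        = adj (pj Γ (Sigma.fst : RX F₀ → κ₀)) * (α * d + δ • adj (α * d))
          * pj Γ (Sigma.fst : RX F₀ → κ₀) := symm_conj δ _ _
    rw [ka', h3, ka, Matrix.mul_zero, Matrix.zero_mul]
  · have h3 : adj (pj Γ (Sigma.fst : RX F₀ → κ₀)) * α * pj Γ (Sigma.fst : RX F₁ → κ₁) * β'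
        = adj (pj Γ (Sigma.fst : RX F₀ → κ₀)) * (α * pj Γ (Sigma.fst : RX F₁ → κ₁) * β') := by
      simp only [Matrix.mul_assoc]
    have h4 : α * pj Γ (Sigma.fst : RX F₁ → κ₁) * β' * adj (pj Γ (Sigma.fst : RX F₀ → κ₀))
        = α * β := by
      conv_rhs => rw [e2]
      simp only [Matrix.mul_assoc]
    have h5 : adj (pj Γ (Sigma.fst : RX F₀ → κ₀)) * adj d
          = adj d' * adj (pj Γ (Sigma.fst : RX F₁ → κ₁)) := by
        rw [← adj_mul, e1, adj_mul]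
    rw [h3, pow_swap, h4, hN, ← Matrix.mul_assoc (adj (pj Γ _)) (adj d) Z, h5]
    simp only [Matrix.mul_assoc]
  · have h3 := fe_exch hδ d d' (pj Γ (Sigma.fst : RX F₁ → κ₁)) (pj Γ (Sigma.fst : RX F₀ → κ₀)) e1
      α β' θa hθa θb hθb
    rw [← e2] at h3
    exact h3

end Pool.Agent.T9h15.RO
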