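import Pool.Agent.T9h15.RO.Rf

set_option autoImplicit false
set_option linter.unusedSectionVars false
set_option linter.unusedSimpArgs false

/-! The recursion for unilateral formations. -/

namespace Pool.Agent.T9h15.RO

open Matrix TH6.LF TH57.Thr Pool.Agent.T9h15.UN Pool.Agent.T9h15.RV Pool.Agent.T9h15.UO

variable {Γ : Type} [Group Γ]

section swap

variable {κ₁ κ₀ : Type} [Fintype κ₁] [DecidableEq κ₁] [Fintype κ₀] [DecidableEq κ₀]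

/-- the nilpotency condition for the exchanged data -/
theorem pow_exch {δ : ℤ} (d : Matrix κ₁ κ₀ (MonoidAlgebra ℤ Γ))
    (α : Matrix κ₀ κ₁ (MonoidAlgebra ℤ Γ)) (β : Matrix κ₁ κ₀ (MonoidAlgebra ℤ Γ))
    (kb : β * adj d + δ • adj (β * adj d) = 0)
    (N : ℕ) (Z : Matrix κ₁ κ₀ (MonoidAlgebra ℤ Γ)) (hN : (α * β) ^ N = adj d * Z) :
    (β * α) ^ (N + 1) = adj (adj d) * (-(δ • (adj β * (Z * α)))) := by
  have h1 : β * adj d = -(δ • (d * adj β)) := by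
    have h2 := eq_neg_of_add_eq_zero_left kb
    rwa [adj_mul, adj_adj] at h2
  rw [adj_adj, pow_swap, hN, ← Matrix.mul_assoc, h1]
  simp only [Matrix.neg_mul, Matrix.mul_neg, Matrix.smul_mul, Matrix.mul_smul, Matrix.mul_assoc]

end swap

/-- the final stage of the recursion -/
theorem odd_end {Λ : Type} [MulAction Γ Λ] (S : Sys Γ Λ) (hno : ∀ g : Γ, g = g⁻¹ → g = 1) {δ : ℤ}
    (hδ : δ * δ = 1) (b : Bool)
    (hS : ∀ x : Λ, ∀ F : Subgroup Γ, F ≤ MulAction.stabilizer Γ x → F.FG → KQ F)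
    {κ₁ κ₀ : Type} [Fintype κ₁] [DecidableEq κ₁] [Fintype κ₀] [DecidableEq κ₀]
    (ℓ₁ : κ₁ → Λ) (ℓ₀ : κ₀ → Λ)
    (d : Matrix κ₁ κ₀ (MonoidAlgebra ℤ Γ)) (α : Matrix κ₀ κ₁ (MonoidAlgebra ℤ Γ))
    (β : Matrix κ₁ κ₀ (MonoidAlgebra ℤ Γ)) (sd : Sup ℓ₁ ℓ₀ (fun x y => x = y) d)
    (sa : Sup ℓ₀ ℓ₁ (S.R (!b)) α) (sb : Sup ℓ₁ ℓ₀ (S.R b) β)
    (ka : α * d + δ • adj (α * d) = 0) (kb : β * adj d + δ • adj (β * adj d) = 0)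
    (N : ℕ) (Z : Matrix κ₁ κ₀ (MonoidAlgebra ℤ Γ)) (hN : (α * β) ^ N = adj d * Z) :
    Ztr δ (ug δ α β) (um d) := by
  cases b
  · exact odd_any S hno hδ ℓ₁ ℓ₀ (fun j g => hS _) d α β sd sa sb ka kb N Z hN
  · refine Ztr.of_FE (fe_swap hδ d α β) ?_
    refine odd_any S hno hδ ℓ₀ ℓ₁ (fun j g => hS _) (adj d) β α
      (sd.adj inv_eq (fun x y h => h.symm)) sb sa kb (by rw [adj_adj]; exact ka) (N + 1) _
      (pow_exch d α β kb N Z hN)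

theorem stageO {δ : ℤ} (hδ : δ * δ = 1) (hno : ∀ g : Γ, g = g⁻¹ → g = 1) (m : ℕ) :
    ∀ {Λ : Type} [MulAction Γ Λ] (S : SysL Γ Λ) (b : Bool)
      (_ : ∀ (n : ℕ) (x z : Λ) (g : Γ), m ≤ n → Wk S.R b (2 * n + 1) x z → g • x = z → g • z = x →
        ∀ F : Subgroup Γ, F ≤ MulAction.stabilizer Γ x ⊓ MulAction.stabilizer Γ z → F.FG → KQ F)
      {κ₁ κ₀ : Type} [Fintype κ₁] [DecidableEq κ₁] [Fintype κ₀] [DecidableEq κ₀]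
      (ℓ₁ : κ₁ → Λ) (ℓ₀ : κ₀ → Λ)
      (d : Matrix κ₁ κ₀ (MonoidAlgebra ℤ Γ)) (α : Matrix κ₀ κ₁ (MonoidAlgebra ℤ Γ))
      (β : Matrix κ₁ κ₀ (MonoidAlgebra ℤ Γ)) (_ : Sup ℓ₁ ℓ₀ (fun x y => x = y) d)
      (_ : Sup ℓ₀ ℓ₁ (S.R (!b)) α) (_ : Sup ℓ₁ ℓ₀ (S.R b) β)
      (_ : α * d + δ • adj (α * d) = 0) (_ : β * adj d + δ • adj (β * adj d) = 0)
      (N : ℕ) (Z : Matrix κ₁ κ₀ (MonoidAlgebra ℤ Γ)) (_ : (α * β) ^ N = adj d * Z),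
      ZtrH δ (ug δ α β) (um d) := by
  induction m with
  | zero =>
    intro Λ _ S b hyp κ₁ κ₀ _ _ _ _ ℓ₁ ℓ₀ d α₀ β₀ sd sa₀ sb₀ ka₀ kb₀ N₀ Z₀ hN₀
    obtain ⟨S', α, β, N, Z, hw, hrev, sa, sb, ka, kb, hN, hfe⟩ :=
      elim_odd S hno hδ b ℓ₁ ℓ₀ d α₀ β₀ sd sa₀ sb₀ ka₀ kb₀ N₀ Z₀ hN₀
    obtain ⟨M₁, M₀, _, _, _, _, t₁, t₀, d', α', β', Z', sd', sa', sb', ka', kb', hN', hfe'⟩ :=
      refine_odd S' hno hδ b ℓ₁ ℓ₀ d α β sd sa sb ka kb N Z hN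
    refine ZtrH.of_FEH (hfe.trans (FEH.of_FE hfe')) (ZtrH.of_Ztr ?_)
    refine odd_end (refSysL S' b).toSys hno hδ b ?_ t₁ t₀ d' α' β' sd' sa' sb' ka' kb' (N + 1) Z' hN'
    intro P F hF hfg
    have h2 : Wk S'.R b (2 * 0 + 1) P.1.1 P.1.2 := ⟨P.1.1, rfl, P.2⟩
    obtain ⟨n', h3, h4⟩ := hw _ _ _ _ h2
    obtain ⟨g, h5, h6⟩ := hrev _ _ _ P.2
    refine hyp n' _ _ g (Nat.zero_le _) h4 h5 h6 F (fun g hg => ?_) hfg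
    have h7 := hF hg
    rw [MulAction.mem_stabilizer_iff] at h7
    rw [Subgroup.mem_inf, MulAction.mem_stabilizer_iff, MulAction.mem_stabilizer_iff]
    exact ⟨congrArg (fun P => P.1.1) h7, congrArg (fun P => P.1.2) h7⟩
  | succ m ih =>
    intro Λ _ S b hyp κ₁ κ₀ _ _ _ _ ℓ₁ ℓ₀ d α₀ β₀ sd sa₀ sb₀ ka₀ kb₀ N₀ Z₀ hN₀
    obtain ⟨S', α, β, N, Z, hw, hrev, sa, sb, ka, kb, hN, hfe⟩ :=
      elim_odd S hno hδ b ℓ₁ ℓ₀ d α₀ β₀ sd sa₀ sb₀ ka₀ kb₀ N₀ Z₀ hN₀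
    obtain ⟨M₁, M₀, _, _, _, _, t₁, t₀, d', α', β', Z', sd', sa', sb', ka', kb', hN', hfe'⟩ :=
      refine_odd S' hno hδ b ℓ₁ ℓ₀ d α β sd sa sb ka kb N Z hN
    refine ZtrH.of_FEH (hfe.trans (FEH.of_FE (hfe'.trans (fe_swap hδ d' α' β')))) ?_
    refine ih (refSysL S' b) (!b) ?_ t₀ t₁ (adj d') β' α' (sd'.adj inv_eq (fun x y h => h.symm))
      (by rw [Bool.not_not]; exact sb') sa' kb' (by rw [adj_adj]; exact ka') (N + 1 + 1) _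
      (pow_exch d' α' β' kb' (N + 1) Z' hN')
    intro n P Q g hmn hPQ hg1 hg2 F hF hfg
    have h2 : Wk S'.R (!b) (2 * n + 1) P.1.1 Q.1.1 := wk_proj S'.toSys b _ _ _ _ hPQ
    have h3 : Wk S'.R (!b) (2 * n + 1 + 1) P.1.2 Q.1.1 := by
      refine wk_cons _ _ _ P.1.1 _ ?_ h2
      rw [Bool.not_not, sd_odd]
      exact S'.symm b _ _ P.2
    have h4 : Wk S'.R b (2 * (n + 1) + 1) P.1.2 Q.1.2 := ⟨Q.1.1, h3, Q.2⟩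
    obtain ⟨n', h5, h6⟩ := hw _ _ _ _ h4
    refine hyp n' P.1.2 Q.1.2 g (by omega) h6 (congrArg (fun P => P.1.2) hg1)
      (congrArg (fun P => P.1.2) hg2) F (fun g hg => ?_) hfg
    have h7 := hF hg
    rw [Subgroup.mem_inf, MulAction.mem_stabilizer_iff, MulAction.mem_stabilizer_iff] at h7 ⊢
    exact ⟨congrArg (fun P => P.1.2) h7.1, congrArg (fun P => P.1.2) h7.2⟩

end Pool.Agent.T9h15.RO
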