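import Pool.Agent.T9h15.RO.St
import Pool.Agent.T9h15.RV.Tr

set_option autoImplicit false
set_option linter.unusedSectionVars false
set_option linter.unusedSimpArgs false

/-! Unilateral formations supported near the edges of a tree: the theorem for reversible paths. -/

namespace Pool.Agent.T9h15.RO

open Matrix TH6.LF TH57.Thr Pool.Agent.T9h15.UN Pool.Agent.T9h15.RV Pool.Agent.T9h15.UO

variable {V : Type} {T : SimpleGraph V} {Γ : Type} [Group Γ] [MulAction Γ V]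
variable {κ₁ κ₀ : Type} [Fintype κ₁] [DecidableEq κ₁] [Fintype κ₀] [DecidableEq κ₀]

/-- **The theorem in terms of the tree.** -/
theorem odd_mainH (hT : T.IsTree) (hΓ : ∀ (g : Γ) (u v : V), T.Adj u v → T.Adj (g • u) (g • v))
    (hno : ∀ g : Γ, g = g⁻¹ → g = 1) (m : ℕ)
    (hm : ∀ (x y : V) (g : Γ), m ≤ T.dist x y → g • x = y → g • y = x → ∀ F : Subgroup Γ,
      F ≤ MulAction.stabilizer Γ x ⊓ MulAction.stabilizer Γ y → F.FG → KQ F)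
    {δ : ℤ} (hδ : δ * δ = 1) (ℓ₁ : κ₁ → V × V) (ℓ₀ : κ₀ → V × V)
    (hℓ₀ : ∀ k, T.Adj (ℓ₀ k).1 (ℓ₀ k).2)
    (d : Matrix κ₁ κ₀ (MonoidAlgebra ℤ Γ)) (α : Matrix κ₀ κ₁ (MonoidAlgebra ℤ Γ))
    (β : Matrix κ₁ κ₀ (MonoidAlgebra ℤ Γ)) (sd : Sup ℓ₁ ℓ₀ (fun x y => x = y) d)
    (sa : Sup ℓ₀ ℓ₁ (trR T true) α) (sb : Sup ℓ₁ ℓ₀ (trR T false) β)
    (ka : α * d + δ • adj (α * d) = 0) (kb : β * adj d + δ • adj (β * adj d) = 0)
    (hs : ∃ B₁ B₂ : Matrix (κ₁ ⊕ κ₀) (κ₁ ⊕ κ₀) (MonoidAlgebra ℤ Γ),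
      ug δ α β * B₁ + um d * B₂ = 1) :
    ZtrH δ (ug δ α β) (um d) := by
  obtain ⟨N, Z, hN⟩ := nilp_odd hT hΓ hδ ℓ₁ ℓ₀ hℓ₀ d α β sd sa sb ka kb hs
  refine stageO hδ hno m (treeSysL hT hΓ) false ?_ ℓ₁ ℓ₀ d α β sd sa sb ka kb N Z hN
  intro n x z g hmn hxz hg1 hg2 F hF hfg
  have hx := wk_adj _ _ _ _ hxz
  have hd := (wk_dist hT _ _ _ _ hx hxz).2
  have e3 : st false (2 * n + 1) x = mv false x := by
    unfold st
    have : (2 * n + 1) % 2 = 1 := by omega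
    rw [this]; simp
  rw [e3] at hd
  refine hm (mv false x) (mv false z) g (by omega) ?_ ?_ F (fun g hg => ?_) hfg
  · rw [← mv_smul, hg1]
  · rw [← mv_smul, hg2]
  · have h7 := hF hg
    rw [Subgroup.mem_inf, MulAction.mem_stabilizer_iff, MulAction.mem_stabilizer_iff] at h7 ⊢
    exact ⟨by rw [← mv_smul, h7.1], by rw [← mv_smul, h7.2]⟩

end Pool.Agent.T9h15.RO
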